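import Pool.Agent.Q45.OI.Alg1

/-!
# Open image: the form modulo two
-/

set_option autoImplicit false
set_option linter.all false

open Module

namespace Pool.Agent.Q45.OI

section form

variable {M V : Type} [AddCommGroup M] [Module ℤ_[2] M] [AddCommGroup V] [Module (ZMod 2) V]
  {κ : M →+ V}

theorem tz_two (a : ℤ_[2]) : PadicInt.toZMod ((2 : ℤ_[2]) * a) = 0 := by
  rw [map_mul]
  have : PadicInt.toZMod (2 : ℤ_[2]) = (0 : ZMod 2) := by
    rw [map_ofNat]
    rfl
  rw [this, zero_mul]

theorem tz_zero_iff (a : ℤ_[2]) : PadicInt.toZMod a = 0 ↔ ∃ b, a = 2 * b := by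
  rw [← RingHom.mem_ker, PadicInt.ker_toZMod, PadicInt.maximalIdeal_eq_span_p,
    Ideal.mem_span_singleton]
  exact Iff.rfl

/-- The form on `V` induced by the form `B` on `M`. -/
theorem exists_beta (hκ : Function.Surjective κ)
    (hk : ∀ m, κ m = 0 ↔ ∃ m', m = (2 : ℤ_[2]) • m') (B : M →ₗ[ℤ_[2]] M →ₗ[ℤ_[2]] ℤ_[2]) :
    ∃ β : V →ₗ[ZMod 2] V →ₗ[ZMod 2] ZMod 2, ∀ x y, β (κ x) (κ y) = PadicInt.toZMod (B x y) := by
  set s := Function.surjInv hκ with hs
  have hs1 : ∀ v, κ (s v) = v := Function.surjInv_eq hκ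
  have key : ∀ x y x' y', κ x = κ x' → κ y = κ y' →
      PadicInt.toZMod (B x y) = PadicInt.toZMod (B x' y') := by
    intro x y x' y' h1 h2
    obtain ⟨a, ha⟩ := (hk (x - x')).1 (by rw [map_sub, h1, sub_self])
    obtain ⟨b, hb⟩ := (hk (y - y')).1 (by rw [map_sub, h2, sub_self])
    have hx : x = x' + (2 : ℤ_[2]) • a := by rw [← ha]; abel
    have hy : y = y' + (2 : ℤ_[2]) • b := by rw [← hb]; abel
    rw [hx, hy]
    simp only [map_add, map_smul, LinearMap.add_apply, LinearMap.smul_apply, smul_eq_mul]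
    rw [tz_two, tz_two, add_zero, add_zero]
  have hadd1 : ∀ u v w, PadicInt.toZMod (B (s (u + v)) (s w)) =
      PadicInt.toZMod (B (s u) (s w)) + PadicInt.toZMod (B (s v) (s w)) := by
    intro u v w
    rw [key (s (u + v)) (s w) (s u + s v) (s w) (by rw [hs1, map_add, hs1, hs1]) rfl, map_add,
      LinearMap.add_apply, map_add]
  have hadd2 : ∀ u v w, PadicInt.toZMod (B (s u) (s (v + w))) =
      PadicInt.toZMod (B (s u) (s v)) + PadicInt.toZMod (B (s u) (s w)) := by
    intro u v w
    rw [key (s u) (s (v + w)) (s u) (s v + s w) rfl (by rw [hs1, map_add, hs1, hs1]), map_add,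
      map_add]
  have h01 : ∀ c : ZMod 2, c = 0 ∨ c = 1 := by decide
  have hz1 : ∀ w, PadicInt.toZMod (B (s 0) (s w)) = 0 := by
    intro w
    rw [key (s 0) (s w) 0 (s w) (by rw [hs1, map_zero]) rfl, map_zero, LinearMap.zero_apply,
      map_zero]
  have hz2 : ∀ w, PadicInt.toZMod (B (s w) (s 0)) = 0 := by
    intro w
    rw [key (s w) (s 0) (s w) 0 rfl (by rw [hs1, map_zero]), map_zero, map_zero]
  refine ⟨LinearMap.mk₂ (ZMod 2) (fun v w => PadicInt.toZMod (B (s v) (s w))) hadd1 ?_ hadd2 ?_, ?_⟩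
  · intro c u v
    rcases h01 c with rfl | rfl
    · rw [zero_smul, zero_smul, hz1]
    · rw [one_smul, one_smul]
  · intro c u v
    rcases h01 c with rfl | rfl
    · rw [zero_smul, zero_smul, hz2]
    · rw [one_smul, one_smul]
  · intro x y
    rw [LinearMap.mk₂_apply]
    exact key _ _ _ _ (hs1 _) (hs1 _)

/-- The case of an irreducible group: the form on `V` is nondegenerate, and either alternating or `V` has
at most one element different from zero. -/
theorem beta_cases (hκ : Function.Surjective κ) (Γ : Subgroup (V ≃ₗ[ZMod 2] V))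
    (hirr : ∀ U : Submodule (ZMod 2) V, (∀ g ∈ Γ, ∀ v ∈ U, g v ∈ U) → U = ⊥ ∨ U = ⊤)
    (β : V →ₗ[ZMod 2] V →ₗ[ZMod 2] ZMod 2) (hsym : ∀ v w, β v w = β w v) (hne : β ≠ 0)
    (hinv : ∀ g ∈ Γ, ∀ v w, β (g v) (g w) = β v w) :
    (∀ v, (∀ w, β v w = 0) → v = 0) ∧ ((∀ v, β v v = 0) ∨ ∀ v, β v v = 0 → v = 0) := by
  have hnd : ∀ v, (∀ w, β v w = 0) → v = 0 := by
    have h1 := hirr (LinearMap.ker β) (by
      intro g hg v hv
      rw [LinearMap.mem_ker] at hv ⊢
      ext w
      rw [LinearMap.zero_apply]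
      have h2 := hinv g hg v (g⁻¹ w)
      have h3 : g (g⁻¹ w) = w := by
        rw [← LinearEquiv.mul_apply, mul_inv_cancel]
        rfl
      rw [h3, hv, LinearMap.zero_apply] at h2
      exact h2)
    rcases h1 with h1 | h1
    · intro v hv
      have h2 : v ∈ LinearMap.ker β := by
        rw [LinearMap.mem_ker]
        ext w
        exact hv w
      rw [h1] at h2
      exact (Submodule.mem_bot _).1 h2
    · exact absurd (LinearMap.ker_eq_top.1 h1) hne
  refine ⟨hnd, ?_⟩
  have hsq : ∀ c : ZMod 2, c + c = 0 := by decide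
  let q : V →ₗ[ZMod 2] ZMod 2 :=
    { toFun := fun v => β v v
      map_add' := fun v w => by
        have h1 := hsq (β v w)
        simp only [map_add, LinearMap.add_apply]
        rw [hsym w v]
        linear_combination h1
      map_smul' := fun c v => by
        have h01 : ∀ c : ZMod 2, c = 0 ∨ c = 1 := by decide
        rcases h01 c with rfl | rfl
        · simp
        · simp }
  have hq : ∀ v, q v = β v v := fun v => rfl
  have h1 := hirr (LinearMap.ker q) (by
    intro g hg v hv
    rw [LinearMap.mem_ker, hq] at hv ⊢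
    rw [hinv g hg, hv])
  rcases h1 with h1 | h1
  · right
    intro v hv
    have h2 : v ∈ LinearMap.ker q := by rw [LinearMap.mem_ker, hq, hv]
    rw [h1] at h2
    exact (Submodule.mem_bot _).1 h2
  · left
    intro v
    have h2 : v ∈ LinearMap.ker q := by rw [h1]; trivial
    exact h2

/-- In the second case, the skew endomorphisms are zero modulo two. -/
theorem skew_zero (β : V →ₗ[ZMod 2] V →ₗ[ZMod 2] ZMod 2) (hsym : ∀ v w, β v w = β w v)
    (h : ∀ v, β v v = 0 → v = 0) (A : V →ₗ[ZMod 2] V) (hA : ∀ v, β (A v) v = 0) : A = 0 := by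
  have hsq : ∀ c : ZMod 2, c + c = 0 := by decide
  have h01 : ∀ c : ZMod 2, c ≠ 0 → c = 1 := by decide
  have huniq : ∀ v w : V, v ≠ 0 → w ≠ 0 → v = w := by
    intro v w hv hw
    have h1 : β v v = 1 := h01 _ fun h2 => hv (h v h2)
    have h2 : β w w = 1 := h01 _ fun h2 => hw (h w h2)
    have h3 : v + w = 0 := by
      apply h
      have h4 := hsq (β v w)
      have h5 := hsq (1 : ZMod 2)
      simp only [map_add, LinearMap.add_apply]
      rw [hsym w v, h1, h2]
      linear_combination h4 + h5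
    have h4 : w + w = 0 := by
      have : (2 : ZMod 2) • w = 0 := by
        have h5 : (2 : ZMod 2) = 0 := rfl
        rw [h5, zero_smul]
      rwa [two_smul] at this
    calc v = v + (w + w) := by rw [h4, add_zero]
      _ = (v + w) + w := by abel
      _ = w := by rw [h3, zero_add]
  ext v
  rw [LinearMap.zero_apply]
  by_contra hne
  have hv : v ≠ 0 := by
    rintro rfl
    exact hne (map_zero A)
  have h1 := huniq _ _ hne hv
  have h2 := hA v
  rw [h1] at h2
  exact hv (h v h2)

end form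

end Pool.Agent.Q45.OI
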