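import Mathlib

/-!
# Statements of the lemma jobs of the project OI (open image), only statements
-/

set_option autoImplicit false
set_option linter.all false

open Module

namespace Pool.Agent.Q45.OI

section basic

variable {M : Type} [AddCommGroup M] [Module ℤ_[2] M]

/-- `A` and `B` are congruent modulo `2 ^ n`. -/
def Cg (n : ℕ) (A B : End ℤ_[2] M) : Prop := ∃ C : End ℤ_[2] M, A = B + (2 : ℤ_[2]) ^ n • C

/-- `A` is in the Lie algebra of the group `H`. -/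
def InLie (H : Subgroup (End ℤ_[2] M)ˣ) (A : End ℤ_[2] M) : Prop :=
  ∀ n : ℕ, ∃ i : ℕ, n ≤ i ∧ ∃ g ∈ H, Cg (i + n) (g : End ℤ_[2] M) (1 + (2 : ℤ_[2]) ^ i • A)

/-- The endomorphism `A` preserves the form `B`. -/
def InO (B : M →ₗ[ℤ_[2]] M →ₗ[ℤ_[2]] ℤ_[2]) (A : End ℤ_[2] M) : Prop :=
  ∀ x y, B (A x) (A y) = B x y

/-- The endomorphism `A` is skew for the form `B`. -/
def InSo (B : M →ₗ[ℤ_[2]] M →ₗ[ℤ_[2]] ℤ_[2]) (A : End ℤ_[2] M) : Prop :=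
  ∀ x y, B (A x) y + B x (A y) = 0

end basic

section large

variable {V : Type} [AddCommGroup V] [Module (ZMod 2) V]

/-- The skew endomorphisms of the alternating form `β`. -/
def skewEnd (β : V →ₗ[ZMod 2] V →ₗ[ZMod 2] ZMod 2) : Submodule (ZMod 2) (V →ₗ[ZMod 2] V) where
  carrier := {A | ∀ v, β (A v) v = 0}
  add_mem' := by
    intro A B hA hB v
    have h1 := hA v
    have h2 := hB v
    simp only [LinearMap.add_apply, map_add, h1, h2, add_zero]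
  zero_mem' := by
    intro v
    simp
  smul_mem' := by
    intro c A hA v
    have h1 := hA v
    simp only [LinearMap.smul_apply, map_smul, h1, smul_zero]

/-- The group `Γ` of automorphisms of `V` is large: it is irreducible, the subgroups of index at most
two have only the endomorphisms `0` and `1`, and for each invariant nondegenerate alternating form, the
stable spaces of skew endomorphisms consist of scalars or have codimension at most one. -/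
structure IsLarge (Γ : Subgroup (V ≃ₗ[ZMod 2] V)) : Prop where
  irr : ∀ U : Submodule (ZMod 2) V, (∀ g ∈ Γ, ∀ v ∈ U, g v ∈ U) → U = ⊥ ∨ U = ⊤
  scal : ∀ Γ' : Subgroup (V ≃ₗ[ZMod 2] V), Γ' ≤ Γ → Γ'.relIndex Γ ∣ 2 →
    ∀ A : V →ₗ[ZMod 2] V, (∀ g ∈ Γ', ∀ v, A (g v) = g (A v)) → A = 0 ∨ A = 1
  skew : ∀ β : V →ₗ[ZMod 2] V →ₗ[ZMod 2] ZMod 2, (∀ v, β v v = 0) →
    (∀ v, (∀ w, β v w = 0) → v = 0) → (∀ g ∈ Γ, ∀ v w, β (g v) (g w) = β v w) →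
    ∀ U : Submodule (ZMod 2) (V →ₗ[ZMod 2] V), U ≤ skewEnd β →
      (∀ g ∈ Γ, ∀ A ∈ U, ∀ A' : V →ₗ[ZMod 2] V, (∀ v, A' (g v) = g (A v)) → A' ∈ U) →
      (∀ A ∈ U, A = 0 ∨ A = 1) ∨ finrank (ZMod 2) (skewEnd β) ≤ finrank (ZMod 2) U + 1

end large

/-- LIE1. The Lie algebra is a saturated submodule, stable under conjugation. -/
def Lie1 : Prop :=
  ∀ (M : Type) [AddCommGroup M] [Module ℤ_[2] M] (H : Subgroup (End ℤ_[2] M)ˣ),
    ∃ L : Submodule ℤ_[2] (End ℤ_[2] M), (∀ A, A ∈ L ↔ InLie H A) ∧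
      (∀ A, (2 : ℤ_[2]) • A ∈ L → A ∈ L) ∧
      (∀ g ∈ H, ∀ A ∈ L, (g : End ℤ_[2] M) * A * ((g⁻¹ : (End ℤ_[2] M)ˣ) : End ℤ_[2] M) ∈ L) ∧
      ∀ A ∈ L, ∀ n, ∃ i₀, ∀ i, i₀ ≤ i →
        ∃ g ∈ H, Cg (i + n) (g : End ℤ_[2] M) (1 + (2 : ℤ_[2]) ^ i • A)

/-- LIE2. The leading term of an element of the group which is `1` modulo `4` is the reduction of an
element of the Lie algebra. -/
def Lie2 : Prop :=
  ∀ (M : Type) [AddCommGroup M] [Module ℤ_[2] M] [Module.Free ℤ_[2] M] [Module.Finite ℤ_[2] M]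
    (H : Subgroup (End ℤ_[2] M)ˣ) (i : ℕ), 2 ≤ i → ∀ g ∈ H, ∀ A : End ℤ_[2] M,
      (g : End ℤ_[2] M) = 1 + (2 : ℤ_[2]) ^ i • A → ∃ A', InLie H A' ∧ Cg 1 A' A

/-- LIE3. The Lie algebra of a group which preserves a form. -/
def Lie3 : Prop :=
  ∀ (M : Type) [AddCommGroup M] [Module ℤ_[2] M] (H : Subgroup (End ℤ_[2] M)ˣ)
    (B : M →ₗ[ℤ_[2]] M →ₗ[ℤ_[2]] ℤ_[2]), (∀ g ∈ H, InO B (g : End ℤ_[2] M)) →
      ∀ A, InLie H A → InSo B A

/-- LIE4. If the Lie algebra of the group contains all the skew endomorphisms, the closure of the group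
contains a congruence subgroup of the orthogonal group. -/
def Lie4 : Prop :=
  ∀ (M : Type) [AddCommGroup M] [Module ℤ_[2] M] [Module.Free ℤ_[2] M] [Module.Finite ℤ_[2] M]
    (H : Subgroup (End ℤ_[2] M)ˣ) (B : M →ₗ[ℤ_[2]] M →ₗ[ℤ_[2]] ℤ_[2]),
    (∀ g ∈ H, InO B (g : End ℤ_[2] M)) → (∀ A, InSo B A → InLie H A) →
      ∃ j : ℕ, ∀ a : (End ℤ_[2] M)ˣ, InO B (a : End ℤ_[2] M) → Cg j (a : End ℤ_[2] M) 1 →
        ∀ n, ∃ g ∈ H, Cg n (g : End ℤ_[2] M) (a : End ℤ_[2] M)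

/-- LIE5. A subgroup which contains all the powers with exponent `N` has the same Lie algebra. -/
def Lie5 : Prop :=
  ∀ (M : Type) [AddCommGroup M] [Module ℤ_[2] M] (H H' : Subgroup (End ℤ_[2] M)ˣ) (N : ℕ), 0 < N →
    (∀ g ∈ H, g ^ N ∈ H') → ∀ A, InLie H A → InLie H' A

/-- ORTH. The orthogonal complement, for the trace form, of a submodule of corank one in the skew
endomorphisms. -/
def Orth : Prop :=
  ∀ (M : Type) [AddCommGroup M] [Module ℤ_[2] M] [Module.Free ℤ_[2] M] [Module.Finite ℤ_[2] M]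
    (B : M →ₗ[ℤ_[2]] M →ₗ[ℤ_[2]] ℤ_[2]), (∀ x y, B x y = B y x) →
    (∀ x, (∀ y, B x y = 0) → x = 0) →
    ∀ S L : Submodule ℤ_[2] (End ℤ_[2] M), (∀ A, A ∈ S ↔ InSo B A) → L ≤ S → L ≠ S →
      (∀ A, (2 : ℤ_[2]) • A ∈ L → A ∈ L) → finrank ℤ_[2] S ≤ finrank ℤ_[2] L + 1 →
      ∃ A₀ : End ℤ_[2] M, A₀ ≠ 0 ∧ InSo B A₀ ∧
        (∀ A' ∈ L, LinearMap.trace ℤ_[2] M (A₀ * A') = 0) ∧
        ∀ A, InSo B A → (∀ A' ∈ L, LinearMap.trace ℤ_[2] M (A * A') = 0) →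
          ∃ c : ℤ_[2], A = c • A₀

/-- LEMX. No line of skew endomorphisms is stable. -/
def LemX : Prop :=
  ∀ (M : Type) [AddCommGroup M] [Module ℤ_[2] M] [Module.Free ℤ_[2] M] [Module.Finite ℤ_[2] M]
    (H : Subgroup (End ℤ_[2] M)ˣ) (B : M →ₗ[ℤ_[2]] M →ₗ[ℤ_[2]] ℤ_[2]), B ≠ 0 →
    (∀ H' : Subgroup (End ℤ_[2] M)ˣ, H' ≤ H → H'.relIndex H ∣ 2 → ∀ A : End ℤ_[2] M,
      (∀ g ∈ H', Cg 1 ((g : End ℤ_[2] M) * A) (A * (g : End ℤ_[2] M))) → Cg 1 A 0 ∨ Cg 1 A 1) →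
    ∀ A₀ : End ℤ_[2] M, InSo B A₀ →
      (∀ g ∈ H, ∃ c : ℤ_[2],
        (g : End ℤ_[2] M) * A₀ * ((g⁻¹ : (End ℤ_[2] M)ˣ) : End ℤ_[2] M) = c • A₀) → A₀ = 0

/-- RED. Reduction modulo two of the endomorphisms. -/
def Red : Prop :=
  ∀ (M V : Type) [AddCommGroup M] [Module ℤ_[2] M] [Module.Free ℤ_[2] M] [Module.Finite ℤ_[2] M]
    [AddCommGroup V] [Module (ZMod 2) V] [Module.Finite (ZMod 2) V] (κ : M →+ V),
    Function.Surjective κ → (∀ m, κ m = 0 ↔ ∃ m', m = (2 : ℤ_[2]) • m') →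
      ∃ R : End ℤ_[2] M →+* End (ZMod 2) V, (∀ A m, R A (κ m) = κ (A m)) ∧
        Function.Surjective R ∧ (∀ A, R A = 0 ↔ ∃ C, A = (2 : ℤ_[2]) • C) ∧
        ∀ L : Submodule ℤ_[2] (End ℤ_[2] M), (∀ A, (2 : ℤ_[2]) • A ∈ L → A ∈ L) →
          ∃ U : Submodule (ZMod 2) (End (ZMod 2) V), (∀ X, X ∈ U ↔ ∃ A ∈ L, R A = X) ∧
            finrank (ZMod 2) U = finrank ℤ_[2] L

/-- LARGE. The groups which contain the orthogonal transvections of a nondegenerate quadratic form in at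
least six variables are large. -/
def Large : Prop :=
  ∀ (V : Type) [AddCommGroup V] [Module (ZMod 2) V] [Module.Finite (ZMod 2) V]
    (Q : QuadraticForm (ZMod 2) V), 6 ≤ finrank (ZMod 2) V →
    (∀ v, (∀ w, QuadraticMap.polar Q v w = 0) → v = 0) →
    ∀ Γ : Subgroup (V ≃ₗ[ZMod 2] V),
      (∀ v, Q v = 1 → ∃ t ∈ Γ, ∀ x, t x = x + QuadraticMap.polar Q x v • v) → IsLarge Γ

end Pool.Agent.Q45.OI
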