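import Pool.Agent.Q45.OI.Stm

/-!
# Open image: first lemmas
-/

set_option autoImplicit false
set_option linter.all false

open Module

namespace Pool.Agent.Q45.OI

theorem relIndex_map_dvd {G G' : Type*} [Group G] [Group G'] (f : G →* G') (H K : Subgroup G)
    (h : H ≤ K) : (H.map f).relIndex (K.map f) ∣ H.relIndex K := by
  have h1 := Subgroup.index_map_dvd (H := H.subgroupOf K) (f := f.subgroupMap K)
    (f.subgroupMap_surjective K)
  have h2 : (H.subgroupOf K).map (f.subgroupMap K) = (H.map f).subgroupOf (K.map f) := by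
    ext ⟨x, hx⟩
    simp only [Subgroup.mem_map, Subgroup.mem_subgroupOf]
    constructor
    · rintro ⟨⟨y, hy⟩, hyH, h3⟩
      refine ⟨y, hyH, ?_⟩
      have := congrArg Subtype.val h3
      exact this
    · rintro ⟨y, hy, h3⟩
      exact ⟨⟨y, h hy⟩, hy, Subtype.ext h3⟩
  rw [h2] at h1
  exact h1

section prim

variable {N : Type} [AddCommGroup N] [Module ℤ_[2] N] [Module.Free ℤ_[2] N]
  [Module.Finite ℤ_[2] N]

theorem two_ne : (2 : ℤ_[2]) ≠ 0 := two_ne_zero

theorem smul_cancel {n : ℕ} {a b : N} (h : (2 : ℤ_[2]) ^ n • a = (2 : ℤ_[2]) ^ n • b) : a = b :=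
  smul_right_injective N (pow_ne_zero n two_ne) h

omit [Module.Free ℤ_[2] N] in
/-- Only zero is divisible by all the powers of `2`. -/
theorem zero_of_div [Module.Free ℤ_[2] N] {a : N} (h : ∀ n : ℕ, ∃ b, a = (2 : ℤ_[2]) ^ n • b) :
    a = 0 := by
  set bs := Module.Free.chooseBasis ℤ_[2] N
  apply bs.repr.injective
  ext i
  rw [map_zero, Finsupp.zero_apply]
  have h1 : ∀ n : ℕ, (2 : ℤ_[2]) ^ n ∣ bs.repr a i := by
    intro n
    obtain ⟨b, hb⟩ := h n
    refine ⟨bs.repr b i, ?_⟩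
    rw [hb, map_smul, Finsupp.smul_apply, smul_eq_mul]
  by_contra hne
  have hn : ∀ n : ℕ, ‖bs.repr a i‖ ≤ (2 : ℝ) ^ (-n : ℤ) := by
    intro n
    have := (PadicInt.norm_le_pow_iff_mem_span_pow (p := 2) (bs.repr a i) n).2
      (Ideal.mem_span_singleton.2 (by exact_mod_cast h1 n))
    exact_mod_cast this
  have hpos : 0 < ‖bs.repr a i‖ := norm_pos_iff.2 hne
  obtain ⟨n, hn1⟩ := exists_pow_lt_of_lt_one hpos (by norm_num : (1 / 2 : ℝ) < 1)
  have h2 := hn n
  have h3 : (2 : ℝ) ^ (-n : ℤ) = (1 / 2 : ℝ) ^ n := by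
    rw [zpow_neg, zpow_natCast, one_div, inv_pow]
  rw [h3] at h2
  exact absurd h2 (not_le.2 hn1)

/-- An element different from zero is a power of `2` times an element which is not divisible by `2`. -/
theorem exists_prim {a : N} (ha : a ≠ 0) : ∃ (n : ℕ) (b : N), a = (2 : ℤ_[2]) ^ n • b ∧
    ¬ ∃ c, b = (2 : ℤ_[2]) • c := by
  by_contra hcon
  push Not at hcon
  apply ha
  apply zero_of_div
  intro n
  induction n with
  | zero => exact ⟨a, by simp⟩
  | succ n ih =>
    obtain ⟨b, hb⟩ := ih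
    obtain ⟨c, hc⟩ := hcon n b hb
    exact ⟨c, by rw [hb, hc, pow_succ, mul_smul]⟩

end prim

section red

variable {M V : Type} [AddCommGroup M] [Module ℤ_[2] M] [AddCommGroup V] [Module (ZMod 2) V]

/-- The map from the group of automorphisms of `M` to the automorphisms of the reduction. -/
noncomputable def phi (R : End ℤ_[2] M →+* End (ZMod 2) V) : (End ℤ_[2] M)ˣ →* (V ≃ₗ[ZMod 2] V) :=
  (LinearMap.GeneralLinearGroup.generalLinearEquiv (ZMod 2) V).toMonoidHom.comp
    (Units.map (R : End ℤ_[2] M →* End (ZMod 2) V))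

theorem phi_apply (R : End ℤ_[2] M →+* End (ZMod 2) V) (g : (End ℤ_[2] M)ˣ) (v : V) :
    phi R g v = R (g : End ℤ_[2] M) v := rfl

end red

end Pool.Agent.Q45.OI
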