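import Pool.Agent.Q45.GM.Dpd

/-!
# The automorphisms of the field of functions of the branch curve
-/

set_option autoImplicit false
set_option linter.all false

open Polynomial
open scoped Classical

namespace Pool.Agent.Q45.OI

open Pool.Agent.Q45.GM (pm FixP)

theorem exists_auto {k k' : Type} [Field k] [Field k'] [Algebra k k'] {P : k[X][X]} {Q : k'[X][X]}
    (hQ : pm k' P = Q) [IsDomain (AdjoinRoot Q)] (L : Type) [Field L] [Algebra (AdjoinRoot Q) L]
    [IsFractionRing (AdjoinRoot Q) L] (τ : k' ≃ₐ[k] k') :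
    ∃ e : L ≃+* L, FixP k (Q := Q) e ∧ ∀ x : k',
      e (algebraMap (AdjoinRoot Q) L (AdjoinRoot.of Q (C x))) =
        algebraMap (AdjoinRoot Q) L (AdjoinRoot.of Q (C (τ x))) := by
  let T1 : k'[X] ≃+* k'[X] := Polynomial.mapEquiv (τ : k' ≃+* k')
  let T2 : k'[X][X] ≃+* k'[X][X] := Polynomial.mapEquiv T1
  have hT1 : ∀ p : k[X], T1 (p.map (algebraMap k k')) = p.map (algebraMap k k') := by
    intro p
    show (p.map (algebraMap k k')).map ((τ : k' ≃+* k') : k' →+* k') = _
    rw [Polynomial.map_map]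
    congr 1
    ext x
    exact τ.commutes x
  have hT2 : ∀ p : k[X][X], T2 (pm k' p) = pm k' p := by
    intro p
    show (p.map (mapRingHom (algebraMap k k'))).map (T1 : k'[X] →+* k'[X]) = _
    rw [Polynomial.map_map]
    unfold pm
    congr 1
    exact RingHom.ext fun x => hT1 x
  have hspan : Ideal.span {Q} = Ideal.map (T2 : k'[X][X] →+* k'[X][X]) (Ideal.span {Q}) := by
    rw [Ideal.map_span, Set.image_singleton]
    congr 2
    rw [← hQ]
    exact (hT2 P).symm
  let T3 : AdjoinRoot Q ≃+* AdjoinRoot Q := Ideal.quotientEquiv (Ideal.span {Q}) (Ideal.span {Q}) T2 hspan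
  have hT3 : ∀ p : k'[X][X], T3 (AdjoinRoot.mk Q p) = AdjoinRoot.mk Q (T2 p) := fun p => rfl
  let e : L ≃+* L := IsFractionRing.ringEquivOfRingEquiv T3
  have he : ∀ x : AdjoinRoot Q, e (algebraMap (AdjoinRoot Q) L x) =
      algebraMap (AdjoinRoot Q) L (T3 x) := fun x => IsFractionRing.ringEquivOfRingEquiv_algebraMap T3 x
  refine ⟨e, fun p => ?_, fun x => ?_⟩
  · rw [he, hT3, hT2]
  · rw [he]
    have h1 : (AdjoinRoot.of Q) (C x) = AdjoinRoot.mk Q (C (C x)) := rfl
    have h2 : T2 (C (C x)) = C (C (τ x)) := by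
      show ((C (C x) : k'[X][X])).map (T1 : k'[X] →+* k'[X]) = _
      rw [map_C]
      congr 1
      show ((C x : k'[X])).map ((τ : k' ≃+* k') : k' →+* k') = _
      rw [map_C]
      rfl
    rw [h1, hT3, h2]
    rfl

end Pool.Agent.Q45.OI
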