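import Pool.Agent.Q45.OI.Geo

/-!
# Open image: the module of the classes
-/

set_option autoImplicit false
set_option linter.all false

open Polynomial IsDedekindDomain WithZero Module
open scoped Classical

namespace Pool.Agent.Q45.OI

open Pool.Agent.Q45.TW (IsGeom)
open Pool.Agent.Q45.GP (Regular)
open Pool.Agent.Y160.SQ
open Pool.Agent.TH115.GD (incl rs ak Sep Comp)
open Pool.Agent.Q45.GM

/-- Congruence of endomorphisms through their values. -/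
theorem cg_iff {M : Type} [AddCommGroup M] [Module ℤ_[2] M] [Module.Free ℤ_[2] M]
    [Module.Finite ℤ_[2] M] (n : ℕ) (A A' : End ℤ_[2] M) :
    Cg n A A' ↔ ∀ m, ∃ m', A m - A' m = (2 : ℤ_[2]) ^ n • m' := by
  constructor
  · rintro ⟨C, hC⟩ m
    refine ⟨C m, ?_⟩
    rw [hC]
    simp
  · intro h
    set bs := Module.Free.chooseBasis ℤ_[2] M
    choose f hf using h
    refine ⟨bs.constr ℤ_[2] fun i => f (bs i), bs.ext fun i => ?_⟩
    rw [LinearMap.add_apply, LinearMap.smul_apply, Basis.constr_basis, ← hf]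
    abel

theorem zero_of_two {N : Type} [AddCommGroup N] [Module ℤ_[2] N] [Module.Free ℤ_[2] N]
    [Module.Finite ℤ_[2] N] (h : ∀ m : N, ∃ m', m = (2 : ℤ_[2]) • m') (m : N) : m = 0 := by
  apply zero_of_div
  intro n
  induction n with
  | zero => exact ⟨m, by simp⟩
  | succ n ih =>
    obtain ⟨b, hb⟩ := ih
    obtain ⟨c, hc⟩ := h b
    exact ⟨c, by rw [hb, hc, pow_succ, mul_smul]⟩

/-- The eight lemmas. -/
structure Lems : Prop where
  l1 : Lie1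
  l2 : Lie2
  l3 : Lie3
  l4 : Lie4
  l5 : Lie5
  lo : Orth
  lx : LemX
  lr : Red

/-- The theorem for a group `G` which acts on `M`. -/
theorem abs_oi (hl : Lems) {M V G : Type} [AddCommGroup M] [Module ℤ_[2] M] [Module.Free ℤ_[2] M]
    [Module.Finite ℤ_[2] M] [AddCommGroup V] [Module (ZMod 2) V] [Module.Finite (ZMod 2) V] [Group G]
    (ρ : G →* (End ℤ_[2] M)ˣ) (κ : M →+ V) (hker : ∀ m, κ m = 0 ↔ ∃ m', m = (2 : ℤ_[2]) • m')
    {Γ : Subgroup (V ≃ₗ[ZMod 2] V)} (hΓ : IsLarge Γ)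
    (htoG : ∀ T, ∃ g ∈ Γ, ∀ m, κ ((ρ T : End ℤ_[2] M) m) = g (κ m))
    (hofG : ∀ g ∈ Γ, ∃ T, ∀ m, κ ((ρ T : End ℤ_[2] M) m) = g (κ m))
    (β : M →ₗ[ℤ_[2]] M →ₗ[ℤ_[2]] ℤ_[2]) (hβ : β ≠ 0) (hsym : ∀ x y, β x y = β y x)
    (hinv : ∀ T x y, β ((ρ T : End ℤ_[2] M) x) ((ρ T : End ℤ_[2] M) y) = β x y) :
    (∀ T, (∀ m, ∃ m', (ρ T : End ℤ_[2] M) m - m = (2 : ℤ_[2]) ^ 2 • m') →
        (ρ T : End ℤ_[2] M) = LinearMap.id) ∨
      ∀ (P : Subgroup G) (N : ℕ), 0 < N → (∀ T, T ^ N ∈ P) → ∃ j : ℕ,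
        ∀ α : M ≃ₗ[ℤ_[2]] M, (∀ x y, β (α x) (α y) = β x y) →
          (∀ m, ∃ m', α m - m = (2 : ℤ_[2]) ^ j • m') →
          ∀ n, ∃ T ∈ P, ∀ m, ∃ m', (ρ T : End ℤ_[2] M) m - α m = (2 : ℤ_[2]) ^ n • m' := by
  have hsurj : Function.Surjective κ := by
    have h3 := hΓ.irr (AddSubgroup.toZModSubmodule 2 κ.range) (by
      rintro g hg _ ⟨m, rfl⟩
      obtain ⟨T, hT⟩ := hofG g hg
      exact ⟨(ρ T : End ℤ_[2] M) m, hT m⟩)
    rcases h3 with h3 | h3
    · exfalso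
      apply hβ
      have h4 : ∀ m, κ m = 0 := by
        intro m
        have h5 : κ m ∈ AddSubgroup.toZModSubmodule 2 κ.range := ⟨m, rfl⟩
        rw [h3] at h5
        exact (Submodule.mem_bot _).1 h5
      have h5 : ∀ m : M, m = 0 := zero_of_two fun m => (hker m).1 (h4 m)
      ext x y
      rw [h5 x, map_zero]
      rfl
    · intro v
      have h5 : v ∈ AddSubgroup.toZModSubmodule 2 κ.range := by rw [h3]; trivial
      exact h5
  have hdat : Dat M V κ ρ.range Γ := by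
    refine ⟨hsurj, hker, hΓ, ?_, ?_⟩
    · rintro _ ⟨T, rfl⟩
      exact htoG T
    · intro g hg
      obtain ⟨T, hT⟩ := hofG g hg
      exact ⟨ρ T, ⟨T, rfl⟩, hT⟩
  have hmain := oi_main hl.l1 hl.l2 hl.l3 hl.l4 hl.l5 hl.lo hl.lx hl.lr hdat β hβ hsym (by
    rintro _ ⟨T, rfl⟩ x y
    exact hinv T x y)
  rcases hmain with h3 | h3
  · left
    intro T hT
    have h4 := h3 (ρ T) ⟨T, rfl⟩ ((cg_iff _ _ _).2 hT)
    have h5 := congrArg Units.val h4
    exact h5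
  · right
    intro P N hN hpow
    obtain ⟨j, hj⟩ := h3 (P.map ρ) N hN
      (by
        rintro _ ⟨T, -, rfl⟩
        exact ⟨T, rfl⟩)
      (by
        rintro _ ⟨T, rfl⟩
        exact ⟨T ^ N, hpow T, by rw [map_pow]⟩)
    refine ⟨j, fun α hα hα1 n => ?_⟩
    let u : (End ℤ_[2] M)ˣ := (LinearMap.GeneralLinearGroup.generalLinearEquiv ℤ_[2] _).symm α
    have hu : ∀ m, (u : End ℤ_[2] M) m = α m := fun m => rfl
    obtain ⟨_, ⟨T, hT, rfl⟩, h5⟩ := hj u (fun x y => hα x y) ((cg_iff _ _ _).2 hα1) n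
    exact ⟨T, hT, (cg_iff _ _ _).1 h5⟩

section core

variable {k k' K F L S : Type} [Field k] [Field k'] [Algebra k k'] [IsSepClosed k']
  [Algebra.IsSeparable k k'] [Field K] [Algebra k[X] K] [Field F] [Algebra k'[X] F] [Algebra K F]
  (B : Type) [CommRing B] [IsDedekindDomain B] [Algebra k'[X] B] [Algebra B F]
  [IsScalarTower k'[X] B F] [IsFractionRing B F] [IsIntegralClosure B k'[X] F]
  [Field L] [Algebra F L] [Algebra K L] [IsScalarTower K F L] [Algebra L (Sep F)]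
  [IsScalarTower F L (Sep F)] [CommRing S] [IsDedekindDomain S] [Algebra S L] [IsFractionRing S L]
  [Algebra B S] [Algebra.IsIntegral B S] [Algebra B L] [IsScalarTower B F L]
  [IsScalarTower B S L] [Module.IsTorsionFree B S] {f : K[X]} (hgd : Good 2 (-1) f) {a : Sep F}
  {θ : L}

/-- The automorphisms of `Lˣ` induced by the automorphisms of `L` which fix `K` and `θ`. -/
def auts (K : Type) {L : Type} [Field K] [Field L] [Algebra K L] (θ : L) : Set (Lˣ →* Lˣ) :=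
  {φ | ∃ e : L ≃+* L, Fixes K θ e ∧ φ = Units.map (e : L →* L)}

include hgd in
/-- **The image of the group of automorphisms is finite or open in the orthogonal group.** -/
theorem core_oi (hl : Lems) (hF : IsGeom k k' K F) {fB : B[X]}
    (hfB : fB.map (algebraMap B F) = f.map (algebraMap K F)) (hfm : fB.Monic)
    (hreg : Regular F fB) (h : Fld (f := f) a θ)
    (hauto : ∀ T : Sep F ≃ₐ[K] Sep F, ∃ e : L ≃+* L, Fixes K θ e ∧
      ∀ x : k', T (cs k' F x) = algebraMap L (Sep F) (e (algebraMap F L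
        (algebraMap k'[X] F (C x)))))
    {V : Type} [AddCommGroup V] [Module (ZMod 2) V] [Module.Finite (ZMod 2) V] {cl : Lˣ → V}
    {Γ : Subgroup (V ≃ₗ[ZMod 2] V)} (hV : IsImg (sqS L) (evS S L) (auts K θ) cl Γ)
    (hΓ : IsLarge Γ) :
    ∃ (_ : Module.Finite ℤ_[2] (SelT (F := F) 2 B f 2))
      (_ : Module.Free ℤ_[2] (SelT (F := F) 2 B f 2)),
      ∀ β : SelT (F := F) 2 B f 2 →ₗ[ℤ_[2]] SelT (F := F) 2 B f 2 →ₗ[ℤ_[2]] ℤ_[2], β ≠ 0 →
        (∀ x y, β x y = β y x) → (∀ T x y, β (rho B hF f T x) (rho B hF f T y) = β x y) →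
        (∀ T : Sep F ≃ₐ[K] Sep F, (∀ m, ∃ m', rho B hF f T m - m = (2 : ℤ_[2]) ^ 2 • m') →
          rho B hF f T = LinearMap.id) ∨
        ∀ (E : IntermediateField k k') [FiniteDimensional k E], ∃ j : ℕ,
          ∀ α : SelT (F := F) 2 B f 2 ≃ₗ[ℤ_[2]] SelT (F := F) 2 B f 2,
            (∀ x y, β (α x) (α y) = β x y) → (∀ m, ∃ m', α m - m = (2 : ℤ_[2]) ^ j • m') →
            ∀ n, ∃ T ∈ fixE (K := K) F E, ∀ m, ∃ m',
              rho B hF f T m - α m = (2 : ℤ_[2]) ^ n • m' := by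
  have hmem : ∀ m : SelT (F := F) 2 B f 2, ∃ z ∈ evS S L, kM hgd h m = clX z := fun m =>
    kM_mem (R := S) hgd hfB hfm hreg h m
  obtain ⟨h1, h2⟩ := fin_free hgd h hV.finite (fun m => by
    obtain ⟨z, hz, h1⟩ := hmem m
    exact ⟨z, hz, h1.symm⟩)
  refine ⟨h1, h2, ?_⟩
  intro β hβ hsym hinv
  obtain ⟨κ, hk1, hk2⟩ := hV.exists_kap (kM (B := B) hgd h) hmem
  have hker : ∀ m : SelT (F := F) 2 B f 2, κ m = 0 ↔ ∃ m', m = (2 : ℤ_[2]) • m' :=
    fun m => by rw [hk1]; exact kM_zero_iff hgd h m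
  have hact : ∀ (e : L ≃+* L) (g : V ≃ₗ[ZMod 2] V), Fixes K θ e →
      (∀ z ∈ evS S L, cl (Units.map (e : L →* L) z) = g (cl z)) → ∀ T : Sep F ≃ₐ[K] Sep F,
      (∀ x : k', T (cs k' F x) = algebraMap L (Sep F) (e (algebraMap F L
        (algebraMap k'[X] F (C x))))) → ∀ m, κ (rho B hF f T m) = g (κ m) :=
    fun e g he hg T hT m => hk2 e g hg m _ (kM_rho B hgd hF h e he T hT m)
  have htoG : ∀ T : Sep F ≃ₐ[K] Sep F, ∃ g ∈ Γ, ∀ m, κ (rho B hF f T m) = g (κ m) := by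
    intro T
    obtain ⟨e, he, hT⟩ := hauto T
    obtain ⟨g, hg, h3⟩ := hV.toG _ ⟨e, he, rfl⟩
    exact ⟨g, hg, hact e g he h3 T hT⟩
  have hofG : ∀ g ∈ Γ, ∃ T : Sep F ≃ₐ[K] Sep F, ∀ m, κ (rho B hF f T m) = g (κ m) := by
    intro g hg
    obtain ⟨_, ⟨e, he, rfl⟩, h3⟩ := hV.ofG g hg
    obtain ⟨T, hT⟩ := lift_e (F := F) e he.1
    refine ⟨T, hact e g he h3 T fun x => ?_⟩
    rw [← hT, cs_apply, IsScalarTower.algebraMap_apply F L (Sep F)]
  have habs := abs_oi hl (rhoU B hF f) κ hker hΓ htoG hofG β hβ hsym hinv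
  rcases habs with h3 | h3
  · exact Or.inl h3
  · right
    intro E _
    obtain ⟨N, hN, hpow⟩ := exists_exp (K := K) (F := F) hF E
    exact h3 (fixE (K := K) F E) N hN hpow

end core

end Pool.Agent.Q45.OI
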