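import Pool.Agent.Q45.OI.Alg2

/-!
# Open image: the theorem on groups of automorphisms of a free `ℤ_2`-module
-/

set_option autoImplicit false
set_option linter.all false

open Module

namespace Pool.Agent.Q45.OI

section form

variable {M : Type} [AddCommGroup M] [Module ℤ_[2] M] [Module.Free ℤ_[2] M]
  [Module.Finite ℤ_[2] M]

/-- The skew endomorphisms. -/
def soS (B : M →ₗ[ℤ_[2]] M →ₗ[ℤ_[2]] ℤ_[2]) : Submodule ℤ_[2] (End ℤ_[2] M) where
  carrier := {A | InSo B A}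
  add_mem' := by
    intro A A' h h' x y
    have h1 := h x y
    have h2 := h' x y
    simp only [LinearMap.add_apply, map_add]
    linear_combination h1 + h2
  zero_mem' := by
    intro x y
    simp
  smul_mem' := by
    intro c A h x y
    have h1 := h x y
    simp only [LinearMap.smul_apply, map_smul, smul_eq_mul]
    linear_combination c * h1

omit [Module.Free ℤ_[2] M] [Module.Finite ℤ_[2] M] in
theorem mem_soS {B : M →ₗ[ℤ_[2]] M →ₗ[ℤ_[2]] ℤ_[2]} {A : End ℤ_[2] M} : A ∈ soS B ↔ InSo B A :=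
  Iff.rfl

omit [Module.Free ℤ_[2] M] [Module.Finite ℤ_[2] M] in
theorem soS_sat {B : M →ₗ[ℤ_[2]] M →ₗ[ℤ_[2]] ℤ_[2]} (A : End ℤ_[2] M)
    (h : (2 : ℤ_[2]) • A ∈ soS B) : A ∈ soS B := by
  intro x y
  have h1 := h x y
  simp only [LinearMap.smul_apply, map_smul, smul_eq_mul] at h1
  have h2 : (2 : ℤ_[2]) * (B (A x) y + B x (A y)) = 0 := by linear_combination h1
  exact (mul_eq_zero.1 h2).resolve_left two_ne

omit [Module.Free ℤ_[2] M] [Module.Finite ℤ_[2] M] in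
theorem inO_smul {B B₁ : M →ₗ[ℤ_[2]] M →ₗ[ℤ_[2]] ℤ_[2]} {n : ℕ}
    (hB : B = (2 : ℤ_[2]) ^ n • B₁) (A : End ℤ_[2] M) : InO B A ↔ InO B₁ A := by
  subst hB
  constructor
  · intro h x y
    have h1 := h x y
    simp only [LinearMap.smul_apply, smul_eq_mul] at h1
    exact mul_left_cancel₀ (pow_ne_zero n two_ne) h1
  · intro h x y
    have h1 := h x y
    simp only [LinearMap.smul_apply, smul_eq_mul]
    rw [h1]

theorem cg1_iff {V : Type} [AddCommGroup V] [Module (ZMod 2) V]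
    {R : End ℤ_[2] M →+* End (ZMod 2) V} (hR : ∀ A, R A = 0 ↔ ∃ C, A = (2 : ℤ_[2]) • C)
    (A A' : End ℤ_[2] M) : Cg 1 A A' ↔ R A = R A' := by
  rw [← sub_eq_zero, ← map_sub, hR]
  constructor
  · rintro ⟨C, hC⟩
    exact ⟨C, by rw [hC, pow_one]; abel⟩
  · rintro ⟨C, hC⟩
    exact ⟨C, by rw [pow_one, ← hC]; abel⟩

end form

/-- The group `H` of automorphisms of `M` induces the large group `Γ` of automorphisms of `V`. -/
structure Dat (M V : Type) [AddCommGroup M] [Module ℤ_[2] M] [AddCommGroup V] [Module (ZMod 2) V]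
    (κ : M →+ V) (H : Subgroup (End ℤ_[2] M)ˣ) (Γ : Subgroup (V ≃ₗ[ZMod 2] V)) : Prop where
  surj : Function.Surjective κ
  ker : ∀ m, κ m = 0 ↔ ∃ m', m = (2 : ℤ_[2]) • m'
  large : IsLarge Γ
  toG : ∀ g ∈ H, ∃ E ∈ Γ, ∀ m, κ ((g : End ℤ_[2] M) m) = E (κ m)
  ofG : ∀ E ∈ Γ, ∃ g ∈ H, ∀ m, κ ((g : End ℤ_[2] M) m) = E (κ m)

section main

variable {M V : Type} [AddCommGroup M] [Module ℤ_[2] M] [Module.Free ℤ_[2] M]
  [Module.Finite ℤ_[2] M] [AddCommGroup V] [Module (ZMod 2) V] [Module.Finite (ZMod 2) V]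
  {κ : M →+ V} {H : Subgroup (End ℤ_[2] M)ˣ} {Γ : Subgroup (V ≃ₗ[ZMod 2] V)}

omit [Module.Free ℤ_[2] M] [Module.Finite ℤ_[2] M] [Module.Finite (ZMod 2) V] in
theorem Dat.map_eq (h : Dat M V κ H Γ) {R : End ℤ_[2] M →+* End (ZMod 2) V}
    (hR : ∀ A m, R A (κ m) = κ (A m)) : H.map (phi R) = Γ := by
  ext E
  rw [Subgroup.mem_map]
  constructor
  · rintro ⟨g, hg, rfl⟩
    obtain ⟨E, hE, h1⟩ := h.toG g hg
    have h2 : phi R g = E := by
      ext v
      obtain ⟨m, rfl⟩ := h.surj v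
      rw [phi_apply, hR, h1]
    rw [h2]
    exact hE
  · intro hE
    obtain ⟨g, hg, h1⟩ := h.ofG E hE
    refine ⟨g, hg, ?_⟩
    ext v
    obtain ⟨m, rfl⟩ := h.surj v
    rw [phi_apply, hR, h1]

/-- The condition of the lemma LEMX. -/
theorem Dat.scal (h : Dat M V κ H Γ) {R : End ℤ_[2] M →+* End (ZMod 2) V}
    (hR : ∀ A m, R A (κ m) = κ (A m)) (hR0 : ∀ A, R A = 0 ↔ ∃ C, A = (2 : ℤ_[2]) • C)
    (H' : Subgroup (End ℤ_[2] M)ˣ) (hH : H' ≤ H) (hi : H'.relIndex H ∣ 2) (A : End ℤ_[2] M)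
    (hA : ∀ g ∈ H', Cg 1 ((g : End ℤ_[2] M) * A) (A * (g : End ℤ_[2] M))) :
    Cg 1 A 0 ∨ Cg 1 A 1 := by
  rw [cg1_iff hR0, cg1_iff hR0, map_zero, map_one]
  refine h.large.scal (H'.map (phi R)) ?_ ?_ (R A) ?_
  · rw [← h.map_eq hR]
    exact Subgroup.map_mono hH
  · rw [← h.map_eq hR]
    exact (relIndex_map_dvd _ _ _ hH).trans hi
  · rintro _ ⟨g, hg, rfl⟩ v
    have h1 := (cg1_iff hR0 _ _).1 (hA g hg)
    rw [map_mul, map_mul] at h1
    rw [phi_apply, phi_apply, ← End.mul_apply, ← End.mul_apply, h1]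

theorem finrank_le_one {L : Submodule ℤ_[2] (End ℤ_[2] M)} {U : Submodule (ZMod 2) (End (ZMod 2) V)}
    (h : finrank (ZMod 2) U = finrank ℤ_[2] L) (hU : ∀ A ∈ U, A = 0 ∨ A = 1) (hL : L ≠ ⊥)
    (hsat : ∀ A, (2 : ℤ_[2]) • A ∈ L → A ∈ L) : ∃ A₀ ∈ L, A₀ ≠ 0 ∧ ∀ A ∈ L, ∃ c : ℤ_[2], A = c • A₀ := by
  have h1 : finrank (ZMod 2) U ≤ 1 := by
    have h2 : U ≤ Submodule.span (ZMod 2) {(1 : End (ZMod 2) V)} := by
      intro A hA
      rcases hU A hA with rfl | rfl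
      · exact zero_mem _
      · exact Submodule.mem_span_singleton_self _
    refine (Submodule.finrank_mono h2).trans ?_
    have h3 := finrank_span_finset_le_card (R := ZMod 2) ({1} : Finset (End (ZMod 2) V))
    rw [Finset.coe_singleton, Finset.card_singleton] at h3
    exact h3
  rw [h] at h1
  obtain ⟨A₀, hA₀, h3⟩ := Submodule.exists_mem_ne_zero_of_ne_bot hL
  have h4 : finrank ℤ_[2] L = 1 := by
    refine le_antisymm h1 ?_
    rw [Nat.one_le_iff_ne_zero]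
    intro h5
    have := Submodule.finrank_eq_zero.1 h5
    exact hL this
  obtain ⟨b, hb⟩ := finrank_eq_one_iff'.1 h4
  have hb2 := hb.2
  refine ⟨b.1, b.2, fun h6 => hb.1 (Subtype.ext h6), fun A hA => ?_⟩
  obtain ⟨c, hc⟩ := hb2 ⟨A, hA⟩
  exact ⟨c, (congrArg Subtype.val hc).symm⟩

/-- **The image of the group is finite or open in the orthogonal group.** -/
theorem oi_main (l1 : Lie1) (l2 : Lie2) (l3 : Lie3) (l4 : Lie4) (l5 : Lie5) (lo : Orth) (lx : LemX)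
    (lr : Red) (h : Dat M V κ H Γ) (B : M →ₗ[ℤ_[2]] M →ₗ[ℤ_[2]] ℤ_[2]) (hB : B ≠ 0)
    (hsym : ∀ x y, B x y = B y x) (hinv : ∀ g ∈ H, InO B (g : End ℤ_[2] M)) :
    (∀ g ∈ H, Cg 2 (g : End ℤ_[2] M) 1 → g = 1) ∨
      ∀ (H' : Subgroup (End ℤ_[2] M)ˣ) (N : ℕ), 0 < N → H' ≤ H → (∀ g ∈ H, g ^ N ∈ H') →
        ∃ j : ℕ, ∀ a : (End ℤ_[2] M)ˣ, InO B (a : End ℤ_[2] M) → Cg j (a : End ℤ_[2] M) 1 →
          ∀ n, ∃ g ∈ H', Cg n (g : End ℤ_[2] M) (a : End ℤ_[2] M) := by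
  obtain ⟨R, hR, hRs, hR0, hRL⟩ := lr M V κ h.surj h.ker
  obtain ⟨s, B₁, hB₁, hprim⟩ := exists_prim (N := M →ₗ[ℤ_[2]] M →ₗ[ℤ_[2]] ℤ_[2]) (a := B) hB
  have hsym₁ : ∀ x y, B₁ x y = B₁ y x := by
    intro x y
    have h1 := hsym x y
    rw [hB₁] at h1
    simp only [LinearMap.smul_apply, smul_eq_mul] at h1
    exact mul_left_cancel₀ (pow_ne_zero s two_ne) h1
  have hinv₁ : ∀ g ∈ H, InO B₁ (g : End ℤ_[2] M) := fun g hg => (inO_smul hB₁ _).1 (hinv g hg)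
  have hB₁0 : B₁ ≠ 0 := by
    rintro rfl
    exact hprim ⟨0, by rw [smul_zero]⟩
  obtain ⟨β, hβ⟩ := exists_beta h.surj h.ker B₁
  have hβs : ∀ v w, β v w = β w v := by
    intro v w
    obtain ⟨x, rfl⟩ := h.surj v
    obtain ⟨y, rfl⟩ := h.surj w
    rw [hβ, hβ, hsym₁]
  have hβ0 : β ≠ 0 := by
    rintro rfl
    apply hprim
    have h1 : ∀ x y, ∃ b, B₁ x y = 2 * b := by
      intro x y
      rw [← tz_zero_iff, ← hβ]
      rfl
    set bs := Module.Free.chooseBasis ℤ_[2] M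
    choose f hf using h1
    refine ⟨bs.constr ℤ_[2] fun i => bs.constr ℤ_[2] fun j => f (bs i) (bs j), ?_⟩
    refine bs.ext fun i => bs.ext fun j => ?_
    rw [LinearMap.smul_apply, LinearMap.smul_apply, Basis.constr_basis, Basis.constr_basis, hf,
      smul_eq_mul]
  have hβinv : ∀ E ∈ Γ, ∀ v w, β (E v) (E w) = β v w := by
    intro E hE v w
    obtain ⟨g, hg, h1⟩ := h.ofG E hE
    obtain ⟨x, rfl⟩ := h.surj v
    obtain ⟨y, rfl⟩ := h.surj w
    rw [← h1, ← h1, hβ, hβ, hinv₁ g hg x y]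
  obtain ⟨hnd, hcases⟩ := beta_cases h.surj Γ h.large.irr β hβs hβ0 hβinv
  -- the skew endomorphisms modulo two
  have hskew : ∀ A, InSo B₁ A → ∀ v, β (R A v) v = 0 := by
    intro A hA v
    obtain ⟨x, rfl⟩ := h.surj v
    rw [hR, hβ]
    have h1 := hA x x
    rw [hsym₁ x (A x)] at h1
    have h2 : (2 : ℤ_[2]) * B₁ (A x) x = 0 := by linear_combination h1
    rw [(mul_eq_zero.1 h2).resolve_left two_ne, map_zero]
  obtain ⟨L, hL, hLsat, hLconj, -⟩ := l1 M H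
  have hLso : L ≤ soS B₁ := fun A hA => l3 M H B₁ hinv₁ A ((hL A).1 hA)
  by_cases hL0 : L = ⊥
  · left
    intro g hg hg2
    by_contra hne
    have hne' : (g : End ℤ_[2] M) - 1 ≠ 0 := fun h1 => hne (Units.ext (sub_eq_zero.1 h1))
    obtain ⟨i, A, hA, hA2⟩ := exists_prim hne'
    have hgA : (g : End ℤ_[2] M) = 1 + (2 : ℤ_[2]) ^ i • A := by rw [← hA]; abel
    have hi : 2 ≤ i := by
      by_contra hi
      obtain ⟨C, hC⟩ := hg2
      have h1 : (2 : ℤ_[2]) ^ i • A = (2 : ℤ_[2]) ^ i • ((2 : ℤ_[2]) ^ (2 - i) • C) := by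
        rw [← mul_smul, ← pow_add, show i + (2 - i) = 2 by omega, ← hA, hC]
        abel
      have h2 := smul_cancel h1
      apply hA2
      refine ⟨(2 : ℤ_[2]) ^ (1 - i) • C, ?_⟩
      rw [h2, ← mul_smul, ← pow_succ', show 1 - i + 1 = 2 - i by omega]
    obtain ⟨A', h1, C, hC⟩ := l2 M H i hi g hg A hgA
    have h2 : A' ∈ L := (hL A').2 h1
    rw [hL0, Submodule.mem_bot] at h2
    apply hA2
    refine ⟨-C, ?_⟩
    rw [h2, pow_one] at hC
    rw [smul_neg, eq_neg_iff_add_eq_zero, ← hC]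
  right
  -- no stable line
  have hline : ∀ A₀ : End ℤ_[2] M, InSo B₁ A₀ → (∀ g ∈ H, ∃ c : ℤ_[2],
      (g : End ℤ_[2] M) * A₀ * ((g⁻¹ : (End ℤ_[2] M)ˣ) : End ℤ_[2] M) = c • A₀) → A₀ = 0 :=
    lx M H B₁ hB₁0 (h.scal hR hR0)
  obtain ⟨U, hU, hUf⟩ := hRL L hLsat
  obtain ⟨US, hUS, hUSf⟩ := hRL (soS B₁) soS_sat
  have halt : ∀ v, β v v = 0 := by
    refine hcases.resolve_right fun h1 => hL0 ?_
    rw [eq_bot_iff]
    intro A hA
    rw [Submodule.mem_bot]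
    by_contra hne
    obtain ⟨n, A₁, hA₁, h2⟩ := exists_prim hne
    have h3 : InSo B₁ A₁ := by
      have h4 := hLso hA
      intro x y
      have h5 := h4 x y
      rw [hA₁] at h5
      simp only [LinearMap.smul_apply, map_smul, smul_eq_mul] at h5
      have h6 : (2 : ℤ_[2]) ^ n * (B₁ (A₁ x) y + B₁ x (A₁ y)) = 0 := by linear_combination h5
      exact (mul_eq_zero.1 h6).resolve_left (pow_ne_zero n two_ne)
    exact h2 ((hR0 A₁).1 (skew_zero β hβs h1 (R A₁) (hskew A₁ h3)))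
  have hUle : U ≤ skewEnd β := by
    intro X hX v
    obtain ⟨A, hA, rfl⟩ := (hU X).1 hX
    exact hskew A (hLso hA) v
  have hUSle : US ≤ skewEnd β := by
    intro X hX v
    obtain ⟨A, hA, rfl⟩ := (hUS X).1 hX
    exact hskew A hA v
  have hconj : ∀ g : (End ℤ_[2] M)ˣ, InO B₁ (g : End ℤ_[2] M) → ∀ A, InSo B₁ A →
      InSo B₁ ((g : End ℤ_[2] M) * A * ((g⁻¹ : (End ℤ_[2] M)ˣ) : End ℤ_[2] M)) := by
    intro g hg A hA x y
    have hgi : ∀ z, (g : End ℤ_[2] M) (((g⁻¹ : (End ℤ_[2] M)ˣ) : End ℤ_[2] M) z) = z := by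
      intro z
      rw [← End.mul_apply, Units.mul_inv]
      rfl
    have h1 := hA (((g⁻¹ : (End ℤ_[2] M)ˣ) : End ℤ_[2] M) x)
      (((g⁻¹ : (End ℤ_[2] M)ˣ) : End ℤ_[2] M) y)
    rw [← hg (A _) _, ← hg _ (A _), hgi, hgi] at h1
    exact h1
  have hS : L = soS B₁ := by
    rcases h.large.skew β halt hnd hβinv U hUle (by
      intro E hE X hX X' hX'
      obtain ⟨g, hg, h1⟩ := h.ofG E hE
      obtain ⟨A, hA, rfl⟩ := (hU X).1 hX
      rw [hU]
      refine ⟨_, hLconj g hg A hA, ?_⟩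
      have h2 : ∀ w, R ((g : End ℤ_[2] M) * A * ((g⁻¹ : (End ℤ_[2] M)ˣ) : End ℤ_[2] M)) (E w) =
          E (R A w) := by
        intro w
        obtain ⟨m, rfl⟩ := h.surj w
        rw [← h1, hR, hR, ← h1, End.mul_apply, End.mul_apply, ← End.mul_apply
          ((g⁻¹ : (End ℤ_[2] M)ˣ) : End ℤ_[2] M), Units.inv_mul]
        rfl
      ext v
      have h3 := h2 (E.symm v)
      rw [LinearEquiv.apply_symm_apply] at h3
      rw [h3, ← hX', LinearEquiv.apply_symm_apply]) with h1 | h1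
    · exfalso
      obtain ⟨A₀, hA₀, h2, h3⟩ := finrank_le_one hUf h1 hL0 hLsat
      exact h2 (hline A₀ (hLso hA₀) fun g hg => h3 _ (hLconj g hg A₀ hA₀))
    · by_contra hne
      have h2 : finrank ℤ_[2] (soS B₁) ≤ finrank ℤ_[2] L + 1 := by
        rw [← hUSf, ← hUf]
        exact (Submodule.finrank_mono hUSle).trans h1
      have hnd₁ : ∀ x, (∀ y, B₁ x y = 0) → x = 0 := by
        intro x hx
        by_contra hx0
        obtain ⟨n, x₁, hx₁, h3⟩ := exists_prim hx0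
        apply h3
        rw [← h.ker]
        apply hnd
        intro w
        obtain ⟨y, rfl⟩ := h.surj w
        have h4 := hx y
        rw [hx₁, map_smul, LinearMap.smul_apply, smul_eq_mul] at h4
        rw [hβ, (mul_eq_zero.1 h4).resolve_left (pow_ne_zero n two_ne), map_zero]
      obtain ⟨A₀, h3, h4, h5, h6⟩ := lo M B₁ hsym₁ hnd₁ (soS B₁) L (fun A => mem_soS) hLso hne
        hLsat h2
      refine h3 (hline A₀ h4 fun g hg => h6 _ (hconj g (hinv₁ g hg) A₀ h4) fun A' hA' => ?_)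
      have h7 := h5 _ (hLconj g⁻¹ (inv_mem hg) A' hA')
      rw [inv_inv] at h7
      rw [mul_assoc, mul_assoc, LinearMap.trace_mul_comm, ← h7]
      congr 1
  intro H' N hN hH' hpow
  obtain ⟨j, hj⟩ := l4 M H' B₁ (fun g hg => hinv₁ g (hH' hg)) fun A hA =>
    l5 M H H' N hN hpow A ((hL A).1 (by rw [hS]; exact hA))
  exact ⟨j, fun a ha => hj a ((inO_smul hB₁ _).1 ha)⟩

end main

end Pool.Agent.Q45.OI
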