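import Pool.Agent.Q45.GM.Dpg
import Pool.Agent.Q45.OI.Auto
import Pool.Agent.Q45.OI.Main

/-!
# Open image: the group of automorphisms of the module of the classes
-/

set_option autoImplicit false
set_option linter.all false

open Polynomial IsDedekindDomain WithZero Module
open scoped Classical

namespace Pool.Agent.Q45.OI

open Pool.Agent.Q45.TW (IsGeom)
open Pool.Agent.Q45.GP (Regular)
open Pool.Agent.Y160.SQ
open Pool.Agent.TH115.GD (incl rs ak Sep Comp)
open Pool.Agent.Q45.GM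

section grp

variable {k k' K F : Type} [Field k] [Field k'] [Algebra k k'] [IsSepClosed k']
  [Algebra.IsSeparable k k'] [Field K] [Algebra k[X] K] [Field F] [Algebra k'[X] F] [Algebra K F]
  (B : Type) [CommRing B] [IsDedekindDomain B] [Algebra k'[X] B]
  [Algebra B F] [IsScalarTower k'[X] B F] [IsFractionRing B F] [IsIntegralClosure B k'[X] F]
  (hF : IsGeom k k' K F) (f : K[X])

/-- The action as a homomorphism of groups. -/
noncomputable def rhoU : (Sep F ≃ₐ[K] Sep F) →* (End ℤ_[2] (SelT (F := F) 2 B f 2))ˣ where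
  toFun T := ⟨rho B hF f T, rho B hF f T⁻¹,
    LinearMap.ext fun m => by
      show rho B hF f T (rho B hF f T⁻¹ m) = m
      rw [← rho_mul, mul_inv_cancel, rho_one],
    LinearMap.ext fun m => by
      show rho B hF f T⁻¹ (rho B hF f T m) = m
      rw [← rho_mul, inv_mul_cancel, rho_one]⟩
  map_one' := Units.ext (LinearMap.ext fun m => rho_one B hF f m)
  map_mul' T T' := Units.ext (LinearMap.ext fun m => rho_mul B hF f T T' m)

theorem rhoU_val (T : Sep F ≃ₐ[K] Sep F) :
    ((rhoU B hF f T : (End ℤ_[2] (SelT (F := F) 2 B f 2))ˣ) :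
      End ℤ_[2] (SelT (F := F) 2 B f 2)) = rho B hF f T := rfl

/-- The automorphisms which fix the extension `E` of `k`. -/
def fixE (F : Type) [Field F] [Algebra k'[X] F] [Algebra K F] (E : IntermediateField k k') :
    Subgroup (Sep F ≃ₐ[K] Sep F) where
  carrier := {T | ∀ x ∈ E, T (cs k' F x) = cs k' F x}
  mul_mem' := by
    intro S T hS hT x hx
    rw [AlgEquiv.mul_apply, hT x hx, hS x hx]
  one_mem' := fun x _ => rfl
  inv_mem' := by
    intro T hT x hx
    have h1 := hT x hx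
    show T.symm _ = _
    rw [AlgEquiv.symm_apply_eq]
    exact h1.symm

include hF in
/-- A power of all the automorphisms fixes a finite extension. -/
theorem exists_exp (E : IntermediateField k k') [FiniteDimensional k E] :
    ∃ N : ℕ, 0 < N ∧ ∀ T : Sep F ≃ₐ[K] Sep F, T ^ N ∈ fixE (K := K) F E := by
  have hcl : IsSepClosure k k' := ⟨inferInstance, inferInstance⟩
  haveI : IsGalois k k' := hcl.isGalois
  let E' : IntermediateField k k' := IntermediateField.normalClosure k E k'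
  haveI : Normal k E' := inferInstance
  haveI : FiniteDimensional k E' := inferInstance
  have hle : E ≤ E' := IntermediateField.le_normalClosure E
  haveI : Finite (E' ≃ₐ[k] E') := inferInstance
  refine ⟨Nat.card (E' ≃ₐ[k] E'), Nat.card_pos, fun T x hx => ?_⟩
  obtain ⟨τ, hτ⟩ := exists_tau hF T
  set N := Nat.card (E' ≃ₐ[k] E') with hN
  have h1 : AlgEquiv.restrictNormalHom E' (τ ^ N) = 1 := by rw [map_pow, hN, pow_card_eq_one']
  have h2 := AlgEquiv.restrictNormal_commutes (τ ^ N) E' ⟨x, hle hx⟩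
  have h3 : AlgEquiv.restrictNormal (τ ^ N) E' = 1 := h1
  rw [h3] at h2
  have h5 : (τ ^ N) x = x := h2.symm
  have h4 : ∀ (i : ℕ) (x : k'), (T ^ i) (cs k' F x) = cs k' F ((τ ^ i) x) := by
    intro i
    induction i with
    | zero => intro x; rfl
    | succ i ih =>
      intro x
      rw [pow_succ', AlgEquiv.mul_apply, ih, hτ, pow_succ', AlgEquiv.mul_apply]
  rw [h4, h5]

end grp

section model

variable {H : Type} [CommGroup H]

/-- `V` is the quotient `Ev / Sq`, and `Γ` the group of the automorphisms of `V` induced by the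
endomorphisms in `E`. -/
structure IsImg (Sq Ev : Subgroup H) (E : Set (H →* H)) {V : Type} [AddCommGroup V]
    [Module (ZMod 2) V] (cl : H → V) (Γ : Subgroup (V ≃ₗ[ZMod 2] V)) : Prop where
  add : ∀ z ∈ Ev, ∀ w ∈ Ev, cl (z * w) = cl z + cl w
  zero : ∀ z ∈ Ev, cl z = 0 ↔ z ∈ Sq
  surj : ∀ v, ∃ z ∈ Ev, cl z = v
  toG : ∀ e ∈ E, ∃ g ∈ Γ, ∀ z ∈ Ev, cl (e z) = g (cl z)
  ofG : ∀ g ∈ Γ, ∃ e ∈ E, ∀ z ∈ Ev, cl (e z) = g (cl z)

end model

section kap

variable {L S : Type} [Field L] [CommRing S] [IsDedekindDomain S] [Algebra S L]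
  [IsFractionRing S L] {V : Type} [AddCommGroup V] [Module (ZMod 2) V] {cl : Lˣ → V}
  {E : Set (Lˣ →* Lˣ)} {Γ : Subgroup (V ≃ₗ[ZMod 2] V)}

theorem IsImg.congr (h : IsImg (sqS L) (evS S L) E cl Γ) {z w : Lˣ}
    (hz : z ∈ evS S L) (hzw : clX z = clX w) : cl z = cl w := by
  obtain ⟨y, hy⟩ := clX_eq hzw.symm
  have h1 : y ^ 2 ∈ sqS L := ⟨y, rfl⟩
  rw [hy, h.add _ hz _ (sq_le h1), (h.zero _ (sq_le h1)).2 h1, add_zero]

theorem IsImg.inj (h : IsImg (sqS L) (evS S L) E cl Γ) {z w : Lˣ}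
    (hz : z ∈ evS S L) (hw : w ∈ evS S L) (hzw : cl z = cl w) : clX z = clX w := by
  have h1 : cl (z * w⁻¹) = 0 := by
    have h2 : cl z = cl (z * w⁻¹) + cl w := by
      rw [← h.add _ (mul_mem hz (inv_mem hw)) _ hw, inv_mul_cancel_right]
    rw [hzw] at h2
    have h3 : (0 : V) + cl w = cl (z * w⁻¹) + cl w := by rw [zero_add]; exact h2
    exact (add_right_cancel h3).symm
  rw [h.zero _ (mul_mem hz (inv_mem hw)), ← clX_zero] at h1
  have h4 : clX (z * w⁻¹) + clX w = clX z := by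
    rw [← clX_mul, inv_mul_cancel_right]
  rw [h1, zero_add] at h4
  exact h4.symm

theorem IsImg.finite [Module.Finite (ZMod 2) V] (h : IsImg (sqS L) (evS S L) E cl Γ) :
    Finite (wX S L) := by
  haveI : Finite V := Module.finite_of_finite (ZMod 2)
  choose r hr1 hr2 using fun x : wX S L => x.2
  refine Finite.of_injective (fun x => cl (r x)) fun x y hxy => ?_
  apply Subtype.ext
  rw [← hr2 x, ← hr2 y]
  exact h.inj (hr1 x) (hr1 y) hxy

/-- The additive map to `V`. -/
theorem IsImg.exists_kap (h : IsImg (sqS L) (evS S L) E cl Γ) {M : Type}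
    [AddCommGroup M] (κ : M →+ XL L) (hκ : ∀ m, ∃ z ∈ evS S L, κ m = clX z) :
    ∃ κ' : M →+ V, (∀ m, κ' m = 0 ↔ κ m = 0) ∧
      ∀ (e : L ≃+* L) (g : V ≃ₗ[ZMod 2] V),
        (∀ z ∈ evS S L, cl (Units.map (e : L →* L) z) = g (cl z)) →
        ∀ m m', κ m' = opX e (κ m) → κ' m' = g (κ' m) := by
  choose r hr1 hr2 using hκ
  refine ⟨AddMonoidHom.mk' (fun m => cl (r m)) (fun m m' => ?_), fun m => ?_,
    fun e g hg m m' hm => ?_⟩
  · rw [← h.add _ (hr1 m) _ (hr1 m')]
    refine h.congr (hr1 _) ?_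
    rw [← hr2, clX_mul, ← hr2, ← hr2, map_add]
  · show cl (r m) = 0 ↔ _
    rw [h.zero _ (hr1 m), hr2, clX_zero]
  · show cl (r m') = g (cl (r m))
    rw [← hg _ (hr1 m)]
    refine h.congr (hr1 _) ?_
    rw [← hr2, hm, hr2]
    rfl

end kap

end Pool.Agent.Q45.OI
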