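import Mathlib

/-!
# Statements of the lemma jobs of the project OI, second part (only statements)
-/

set_option autoImplicit false
set_option linter.all false

open Module

namespace Pool.Agent.Q45.OI

/-- CLIFF. Restriction of an irreducible representation to a normal subgroup with scalar commutant. -/
def Cliff : Prop :=
  ∀ (M G : Type) [AddCommGroup M] [Module ℤ_[2] M] [Module.Free ℤ_[2] M] [Module.Finite ℤ_[2] M]
    [Group G] (ρ : G →* (End ℤ_[2] M)ˣ) (N : Subgroup G), N.Normal →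
    (∀ U : Submodule ℤ_[2] M, (∀ T, ∀ u ∈ U, (ρ T : End ℤ_[2] M) u ∈ U) →
      U = ⊥ ∨ ∃ r : ℕ, ∀ m : M, (2 : ℤ_[2]) ^ r • m ∈ U) →
    (∀ A : End ℤ_[2] M, (∀ T ∈ N, ∀ m, A ((ρ T : End ℤ_[2] M) m) = (ρ T : End ℤ_[2] M) (A m)) →
      ∃ c : ℤ_[2], ∀ m, A m = c • m) →
    ∀ U : Submodule ℤ_[2] M, (∀ T ∈ N, ∀ u ∈ U, (ρ T : End ℤ_[2] M) u ∈ U) →
      U = ⊥ ∨ ∃ r : ℕ, ∀ m : M, (2 : ℤ_[2]) ^ r • m ∈ U

/-- COMM. Let `R` be the reduction modulo two of the endomorphisms of `M` (a ring homomorphism to a ring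
`E` with kernel `2 End M`), and `C` a subalgebra of `End M` which is saturated. If the image of `C` is `{0, 1}`
then `C` consists of scalars; if the image of `C` is the image of `End M` then `C` is everything. -/
def Comm : Prop :=
  ∀ (M E : Type) [AddCommGroup M] [Module ℤ_[2] M] [Module.Free ℤ_[2] M] [Module.Finite ℤ_[2] M]
    [Ring E] (R : End ℤ_[2] M →+* E), (∀ A, R A = 0 ↔ ∃ C, A = (2 : ℤ_[2]) • C) →
    ∀ C : Submodule ℤ_[2] (End ℤ_[2] M), 1 ∈ C → (∀ A, (2 : ℤ_[2]) • A ∈ C → A ∈ C) →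
      ((∀ A ∈ C, R A = 0 ∨ R A = 1) → ∀ A ∈ C, ∃ c : ℤ_[2], ∀ m, A m = c • m) ∧
      ((∀ A, ∃ A' ∈ C, R A' = R A) → ∀ A, A ∈ C)

end Pool.Agent.Q45.OI
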