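import Pool.Agent.Q45.OI.Core
import Pool.Agent.Q45.OI.StmB
import Pool.Agent.Q45.GM.Inv

/-!
# Very simple representations
-/

set_option autoImplicit false
set_option linter.all false

open Module
open scoped Classical

namespace Pool.Agent.Q45.OI

section vs

variable {V : Type} [AddCommGroup V] [Module (ZMod 2) V]

/-- The representation of `Γ` on `V` is very simple: the algebras of endomorphisms which are stable
under conjugation are `{0, 1}` and the algebra of all the endomorphisms. -/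
def VerySimple (Γ : Subgroup (V ≃ₗ[ZMod 2] V)) : Prop :=
  ∀ R : Subalgebra (ZMod 2) (End (ZMod 2) V),
    (∀ g ∈ Γ, ∀ A ∈ R, ∀ A' : End (ZMod 2) V, (∀ v, A' (g v) = g (A v)) → A' ∈ R) → R = ⊥ ∨ R = ⊤

theorem exists_phi {v : V} (hv : v ≠ 0) : ∃ φ : V →ₗ[ZMod 2] ZMod 2, φ v = 1 := by
  have h1 : ¬ ∀ φ : Dual (ZMod 2) V, φ v = 0 := fun h =>
    hv ((forall_dual_apply_eq_zero_iff (ZMod 2) v).1 h)
  push Not at h1
  obtain ⟨φ, hφ⟩ := h1
  have h01 : ∀ c : ZMod 2, c ≠ 0 → c = 1 := by decide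
  exact ⟨φ, h01 _ hφ⟩

theorem VerySimple.irr {Γ : Subgroup (V ≃ₗ[ZMod 2] V)} (h : VerySimple Γ)
    (U : Submodule (ZMod 2) V) (hU : ∀ g ∈ Γ, ∀ v ∈ U, g v ∈ U) : U = ⊥ ∨ U = ⊤ := by
  let R : Subalgebra (ZMod 2) (End (ZMod 2) V) :=
    { carrier := {A | ∀ u ∈ U, A u ∈ U}
      mul_mem' := fun {A B} hA hB u hu => hA _ (hB u hu)
      add_mem' := fun {A B} hA hB u hu => U.add_mem (hA u hu) (hB u hu)
      algebraMap_mem' := fun c u hu => U.smul_mem c hu }
  have hR : ∀ A, A ∈ R ↔ ∀ u ∈ U, A u ∈ U := fun A => Iff.rfl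
  by_contra hcon
  push Not at hcon
  obtain ⟨u, hu, hu0⟩ := Submodule.exists_mem_ne_zero_of_ne_bot hcon.1
  obtain ⟨v, hv⟩ : ∃ v, v ∉ U := by
    by_contra hc
    push Not at hc
    exact hcon.2 (eq_top_iff.2 fun v _ => hc v)
  have hv0 : v ≠ 0 := by
    rintro rfl
    exact hv U.zero_mem
  rcases h R (by
    intro g hg A hA A' hA' w hw
    have hgi : g⁻¹ ∈ Γ := inv_mem hg
    have h1 := hA' (g⁻¹ w)
    have h2 : g (g⁻¹ w) = w := by
      rw [← LinearEquiv.mul_apply, mul_inv_cancel]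
      rfl
    rw [h2] at h1
    rw [h1]
    exact hU g hg _ (hA _ (hU _ hgi w hw))) with h1 | h1
  · obtain ⟨φ, hφ⟩ := exists_phi hv0
    have h2 : φ.smulRight u ∈ R := by
      intro w _
      rw [LinearMap.smulRight_apply]
      exact U.smul_mem _ hu
    rw [h1, Algebra.mem_bot] at h2
    obtain ⟨c, hc⟩ := h2
    have h3 := LinearMap.congr_fun hc v
    rw [LinearMap.smulRight_apply, hφ, one_smul, Module.algebraMap_end_apply] at h3
    have h01 : ∀ c : ZMod 2, c = 0 ∨ c = 1 := by decide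
    rcases h01 c with rfl | rfl
    · rw [zero_smul] at h3
      exact hu0 h3.symm
    · rw [one_smul] at h3
      rw [h3] at hv
      exact hv hu
  · obtain ⟨φ, hφ⟩ := exists_phi hu0
    have h2 : φ.smulRight v ∈ R := by rw [h1]; trivial
    have h3 := h2 u hu
    rw [LinearMap.smulRight_apply, hφ, one_smul] at h3
    exact hv h3

theorem central_scalar {A : End (ZMod 2) V} (hA : ∀ B : End (ZMod 2) V, A * B = B * A) :
    A = 0 ∨ A = 1 := by
  by_cases hV : ∀ v : V, v = 0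
  · left
    ext v
    rw [hV v, map_zero, map_zero]
  push Not at hV
  obtain ⟨u, hu⟩ := hV
  obtain ⟨φ, hφ⟩ := exists_phi hu
  have h1 : ∀ v, A v = φ (A u) • v := by
    intro v
    have h2 := LinearMap.congr_fun (hA (φ.smulRight v)) u
    rw [End.mul_apply, End.mul_apply, LinearMap.smulRight_apply, LinearMap.smulRight_apply, hφ,
      one_smul] at h2
    exact h2
  have h01 : ∀ c : ZMod 2, c = 0 ∨ c = 1 := by decide
  rcases h01 (φ (A u)) with h2 | h2
  · left
    ext v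
    rw [h1, h2, zero_smul]
    rfl
  · right
    ext v
    rw [h1, h2, one_smul]
    rfl

end vs

section main

variable {M V G : Type} [AddCommGroup M] [Module ℤ_[2] M] [Module.Free ℤ_[2] M]
  [Module.Finite ℤ_[2] M] [AddCommGroup V] [Module (ZMod 2) V] [Module.Finite (ZMod 2) V] [Group G]

/-- **Very simple representations**: the case of a surjective reduction. -/
theorem vs_main (hc : Cliff) (hm : Comm) (lr : Red) (ρ : G →* (End ℤ_[2] M)ˣ) (κ : M →+ V)
    (hker : ∀ m, κ m = 0 ↔ ∃ m', m = (2 : ℤ_[2]) • m') (hsurj : Function.Surjective κ)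
    {Γ : Subgroup (V ≃ₗ[ZMod 2] V)} (hΓ : VerySimple Γ)
    (hofG : ∀ g ∈ Γ, ∃ T, ∀ m, κ ((ρ T : End ℤ_[2] M) m) = g (κ m)) :
    (∀ U : Submodule ℤ_[2] M, (∀ T, ∀ u ∈ U, (ρ T : End ℤ_[2] M) u ∈ U) →
      U = ⊥ ∨ ∃ r : ℕ, ∀ m : M, (2 : ℤ_[2]) ^ r • m ∈ U) ∧
    ∀ N : Subgroup G, N.Normal →
      (∀ T ∈ N, ∃ c : ℤ_[2], ∀ m, (ρ T : End ℤ_[2] M) m = c • m) ∨
      ((∀ U : Submodule ℤ_[2] M, (∀ T ∈ N, ∀ u ∈ U, (ρ T : End ℤ_[2] M) u ∈ U) →
        U = ⊥ ∨ ∃ r : ℕ, ∀ m : M, (2 : ℤ_[2]) ^ r • m ∈ U) ∧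
      ∀ A : End ℤ_[2] M, (∀ T ∈ N, ∀ m, A ((ρ T : End ℤ_[2] M) m) = (ρ T : End ℤ_[2] M) (A m)) →
        ∃ c : ℤ_[2], ∀ m, A m = c • m) := by
  have hirr : ∀ U : Submodule ℤ_[2] M, (∀ T, ∀ u ∈ U, (ρ T : End ℤ_[2] M) u ∈ U) →
      U = ⊥ ∨ ∃ r : ℕ, ∀ m : M, (2 : ℤ_[2]) ^ r • m ∈ U := by
    intro U hU
    have hI : Pool.Agent.Q45.GM.Inv (⊤ : AddSubgroup V)
        {γ | ∃ g ∈ Γ, γ = (g : V →ₗ[ZMod 2] V).toAddMonoidHom} κ
        {φ | ∃ T, φ = (ρ T : End ℤ_[2] M)} := by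
      refine ⟨hker, fun m => trivial, ?_⟩
      rintro _ ⟨g, hg, rfl⟩
      obtain ⟨T, hT⟩ := hofG g hg
      exact ⟨_, ⟨T, rfl⟩, hT⟩
    refine hI.irr ?_ U ?_
    · intro U' _ hU'
      rcases hΓ.irr (AddSubgroup.toZModSubmodule 2 U') (fun g hg v hv => hU' _ ⟨g, hg, rfl⟩ v hv)
        with h1 | h1
      · left
        ext v
        have h2 := SetLike.ext_iff.1 h1 v
        exact h2
      · right
        ext v
        have h2 := SetLike.ext_iff.1 h1 v
        exact h2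
    · rintro _ ⟨T, rfl⟩ m hm
      exact hU T m hm
  refine ⟨hirr, ?_⟩
  intro N hN
  obtain ⟨R, hR, hRs, hR0, -⟩ := lr M V κ hsurj hker
  let C : Submodule ℤ_[2] (End ℤ_[2] M) :=
    { carrier := {A | ∀ T ∈ N, ∀ m, A ((ρ T : End ℤ_[2] M) m) = (ρ T : End ℤ_[2] M) (A m)}
      add_mem' := by
        intro A B hA hB T hT m
        rw [LinearMap.add_apply, LinearMap.add_apply, map_add, hA T hT, hB T hT]
      zero_mem' := by
        intro T hT m
        rw [LinearMap.zero_apply, LinearMap.zero_apply, map_zero]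
      smul_mem' := by
        intro c A hA T hT m
        rw [LinearMap.smul_apply, LinearMap.smul_apply, map_smul, hA T hT] }
  have hC : ∀ A, A ∈ C ↔ ∀ T ∈ N, ∀ m, A ((ρ T : End ℤ_[2] M) m) = (ρ T : End ℤ_[2] M) (A m) :=
    fun A => Iff.rfl
  have hC1 : (1 : End ℤ_[2] M) ∈ C := fun T hT m => rfl
  have hCs : ∀ A, (2 : ℤ_[2]) • A ∈ C → A ∈ C := by
    intro A hA T hT m
    have h1 := hA T hT m
    rw [LinearMap.smul_apply, LinearMap.smul_apply, map_smul] at h1
    exact smul_right_injective M two_ne h1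
  let RC : Subalgebra (ZMod 2) (End (ZMod 2) V) :=
    { carrier := {X | ∃ A ∈ C, R A = X}
      mul_mem' := by
        rintro _ _ ⟨A, hA, rfl⟩ ⟨B, hB, rfl⟩
        refine ⟨A * B, ?_, map_mul R A B⟩
        intro T hT m
        rw [End.mul_apply, End.mul_apply, hB T hT, hA T hT]
      add_mem' := by
        rintro _ _ ⟨A, hA, rfl⟩ ⟨B, hB, rfl⟩
        exact ⟨A + B, C.add_mem hA hB, map_add R A B⟩
      algebraMap_mem' := by
        intro c
        have h01 : ∀ c : ZMod 2, c = 0 ∨ c = 1 := by decide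
        rcases h01 c with rfl | rfl
        · exact ⟨0, C.zero_mem, by rw [map_zero, map_zero]⟩
        · exact ⟨1, hC1, by rw [map_one, map_one]⟩ }
  have hRC : ∀ X, X ∈ RC ↔ ∃ A ∈ C, R A = X := fun X => Iff.rfl
  have hinv1 : ∀ T : G, (ρ T : End ℤ_[2] M) * (ρ T⁻¹ : End ℤ_[2] M) = 1 := by
    intro T
    rw [map_inv]
    exact Units.mul_inv _
  have hinv2 : ∀ T : G, (ρ T⁻¹ : End ℤ_[2] M) * (ρ T : End ℤ_[2] M) = 1 := by
    intro T
    rw [map_inv]
    exact Units.inv_mul _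
  have hmulr : ∀ S T : G, (ρ (S * T) : End ℤ_[2] M) = (ρ S : End ℤ_[2] M) * (ρ T : End ℤ_[2] M) := by
    intro S T
    rw [map_mul]
    rfl
  rcases hΓ RC (by
    rintro g hg _ ⟨A, hA, rfl⟩ X' hX'
    obtain ⟨T, hT⟩ := hofG g hg
    rw [hRC]
    refine ⟨(ρ T : End ℤ_[2] M) * A * (ρ T⁻¹ : End ℤ_[2] M), ?_, ?_⟩
    · intro S hS m
      have h1 : T⁻¹ * S * T ∈ N := by
        have := hN.conj_mem S hS T⁻¹
        rwa [inv_inv] at this
      have h2 : ∀ w, A ((ρ (T⁻¹ * S * T) : End ℤ_[2] M) w) = (ρ (T⁻¹ * S * T) : End ℤ_[2] M) (A w) :=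
        hA _ h1
      have h3 : (ρ T⁻¹ : End ℤ_[2] M) * (ρ S : End ℤ_[2] M) =
          (ρ (T⁻¹ * S * T) : End ℤ_[2] M) * (ρ T⁻¹ : End ℤ_[2] M) := by
        rw [← hmulr, ← hmulr]
        congr 2
        group
      have h4 : (ρ S : End ℤ_[2] M) * (ρ T : End ℤ_[2] M) =
          (ρ T : End ℤ_[2] M) * (ρ (T⁻¹ * S * T) : End ℤ_[2] M) := by
        rw [← hmulr, ← hmulr]
        congr 2
        group
      have h5 := LinearMap.congr_fun h3 m
      have h6 := LinearMap.congr_fun h4 (A ((ρ T⁻¹ : End ℤ_[2] M) m))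
      rw [End.mul_apply, End.mul_apply] at h5 h6
      rw [End.mul_apply, End.mul_apply, End.mul_apply, End.mul_apply, h5, h2, ← h6]
    · have h2 : ∀ w, R ((ρ T : End ℤ_[2] M) * A * (ρ T⁻¹ : End ℤ_[2] M)) (g w) = g (R A w) := by
        intro w
        obtain ⟨m, rfl⟩ := hsurj w
        have h7 := LinearMap.congr_fun (hinv2 T) m
        rw [End.mul_apply] at h7
        rw [← hT, hR, hR, ← hT, End.mul_apply, End.mul_apply, h7]
        rfl
      ext v
      have h3 := h2 (g.symm v)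
      rw [LinearEquiv.apply_symm_apply] at h3
      rw [h3, ← hX', LinearEquiv.apply_symm_apply]) with h1 | h1
  · right
    have hsc : ∀ A ∈ C, ∃ c : ℤ_[2], ∀ m, A m = c • m := by
      refine (hm M (End (ZMod 2) V) R hR0 C hC1 hCs).1 ?_
      intro A hA
      have h2 : R A ∈ RC := ⟨A, hA, rfl⟩
      rw [h1, Algebra.mem_bot] at h2
      obtain ⟨c, hc2⟩ := h2
      have h01 : ∀ c : ZMod 2, c = 0 ∨ c = 1 := by decide
      rcases h01 c with rfl | rfl
      · left
        rw [← hc2, map_zero]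
      · right
        rw [← hc2, map_one]
    exact ⟨hc M G ρ N hN hirr hsc, hsc⟩
  · left
    have hall : ∀ A, A ∈ C := by
      refine (hm M (End (ZMod 2) V) R hR0 C hC1 hCs).2 fun A => ?_
      have h2 : R A ∈ RC := by rw [h1]; trivial
      exact h2
    -- the centre
    let Z : Submodule ℤ_[2] (End ℤ_[2] M) :=
      { carrier := {A | ∀ B : End ℤ_[2] M, A * B = B * A}
        add_mem' := by
          intro A A' hA hA' B
          rw [add_mul, mul_add, hA, hA']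
        zero_mem' := by
          intro B
          rw [zero_mul, mul_zero]
        smul_mem' := by
          intro c A hA B
          rw [smul_mul_assoc, mul_smul_comm, hA] }
    have hZ1 : (1 : End ℤ_[2] M) ∈ Z := fun B => by rw [one_mul, mul_one]
    have hZs : ∀ A, (2 : ℤ_[2]) • A ∈ Z → A ∈ Z := by
      intro A hA B
      have h2 := hA B
      rw [smul_mul_assoc, mul_smul_comm] at h2
      exact smul_right_injective (End ℤ_[2] M) two_ne h2
    have hZsc := (hm M (End (ZMod 2) V) R hR0 Z hZ1 hZs).1 (by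
      intro A hA
      apply central_scalar
      intro X
      obtain ⟨B, rfl⟩ := hRs X
      rw [← map_mul, hA, map_mul])
    intro T hT
    apply hZsc
    intro B
    refine LinearMap.ext fun m => ?_
    exact (hall B T hT m).symm

end main

end Pool.Agent.Q45.OI
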