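import Pool.Agent.Q45.OI.VS

/-!
# Very simple representations: the module of the classes
-/

set_option autoImplicit false
set_option linter.all false

open Polynomial IsDedekindDomain WithZero Module
open scoped Classical

namespace Pool.Agent.Q45.OI

open Pool.Agent.Q45.TW (IsGeom)
open Pool.Agent.Q45.GP (Regular)
open Pool.Agent.Y160.SQ
open Pool.Agent.TH115.GD (incl rs ak Sep Comp)
open Pool.Agent.Q45.GM

section abs

variable {M V G : Type} [AddCommGroup M] [Module ℤ_[2] M] [Module.Free ℤ_[2] M]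
  [Module.Finite ℤ_[2] M] [AddCommGroup V] [Module (ZMod 2) V] [Module.Finite (ZMod 2) V] [Group G]

/-- The elements of `N` act as scalars. -/
def ScalarOn (ρ : G →* (End ℤ_[2] M)ˣ) (N : Subgroup G) : Prop :=
  ∀ T ∈ N, ∃ c : ℤ_[2], ∀ m, (ρ T : End ℤ_[2] M) m = c • m

/-- The action of `N` is irreducible and has only scalar endomorphisms. -/
def AbsIrr (ρ : G →* (End ℤ_[2] M)ˣ) (N : Subgroup G) : Prop :=
  (∀ U : Submodule ℤ_[2] M, (∀ T ∈ N, ∀ u ∈ U, (ρ T : End ℤ_[2] M) u ∈ U) →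
    U = ⊥ ∨ ∃ r : ℕ, ∀ m : M, (2 : ℤ_[2]) ^ r • m ∈ U) ∧
  ∀ A : End ℤ_[2] M, (∀ T ∈ N, ∀ m, A ((ρ T : End ℤ_[2] M) m) = (ρ T : End ℤ_[2] M) (A m)) →
    ∃ c : ℤ_[2], ∀ m, A m = c • m

theorem AbsIrr.mono {ρ : G →* (End ℤ_[2] M)ˣ} {N N' : Subgroup G} (h : AbsIrr ρ N) (hN : N ≤ N') :
    AbsIrr ρ N' :=
  ⟨fun U hU => h.1 U fun T hT => hU T (hN hT), fun A hA => h.2 A fun T hT => hA T (hN hT)⟩

theorem abs_vs (hc : Cliff) (hm : Comm) (lr : Red) (ρ : G →* (End ℤ_[2] M)ˣ) (κ : M →+ V)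
    (hker : ∀ m, κ m = 0 ↔ ∃ m', m = (2 : ℤ_[2]) • m') {Γ : Subgroup (V ≃ₗ[ZMod 2] V)}
    (hΓ : VerySimple Γ) (hofG : ∀ g ∈ Γ, ∃ T, ∀ m, κ ((ρ T : End ℤ_[2] M) m) = g (κ m))
    (N : Subgroup G) (hN : N.Normal) : ScalarOn ρ N ∨ AbsIrr ρ N := by
  have h3 := hΓ.irr (AddSubgroup.toZModSubmodule 2 κ.range) (by
    rintro g hg _ ⟨m, rfl⟩
    obtain ⟨T, hT⟩ := hofG g hg
    exact ⟨(ρ T : End ℤ_[2] M) m, hT m⟩)
  rcases h3 with h3 | h3
  · left
    have h4 : ∀ m, κ m = 0 := by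
      intro m
      have h5 : κ m ∈ AddSubgroup.toZModSubmodule 2 κ.range := ⟨m, rfl⟩
      rw [h3] at h5
      exact (Submodule.mem_bot _).1 h5
    have h5 : ∀ m : M, m = 0 := zero_of_two fun m => (hker m).1 (h4 m)
    intro T _
    exact ⟨1, fun m => by rw [h5 m, map_zero, smul_zero]⟩
  · have hsurj : Function.Surjective κ := by
      intro v
      have h5 : v ∈ AddSubgroup.toZModSubmodule 2 κ.range := by rw [h3]; trivial
      exact h5
    exact (vs_main hc hm lr ρ κ hker hsurj hΓ hofG).2 N hN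

end abs

section grp

variable {k k' K F : Type} [Field k] [Field k'] [Algebra k k'] [IsSepClosed k']
  [Algebra.IsSeparable k k'] [Field K] [Algebra k[X] K] [Field F] [Algebra k'[X] F] [Algebra K F]
  (hF : IsGeom k k' K F)

include hF in
theorem fixE_normal (E : IntermediateField k k') [Normal k E] : (fixE (K := K) F E).Normal := by
  refine ⟨fun S hS T x hx => ?_⟩
  obtain ⟨τ, hτ⟩ := exists_tau hF T⁻¹
  have h1 : τ x ∈ E := by
    have h2 := AlgEquiv.restrictNormal_commutes τ E ⟨x, hx⟩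
    have h3 : τ x = ((AlgEquiv.restrictNormal τ E ⟨x, hx⟩ : E) : k') := h2.symm
    rw [h3]
    exact SetLike.coe_mem _
  rw [AlgEquiv.mul_apply, AlgEquiv.mul_apply, hτ, hS _ h1, ← hτ]
  exact T.apply_symm_apply _

theorem fixE_anti {E E' : IntermediateField k k'} (h : E ≤ E') :
    fixE (K := K) F E' ≤ fixE (K := K) F E := fun T hT x hx => hT x (h hx)

end grp

section core

variable {k k' K F L S : Type} [Field k] [Field k'] [Algebra k k'] [IsSepClosed k']
  [Algebra.IsSeparable k k'] [Field K] [Algebra k[X] K] [Field F] [Algebra k'[X] F] [Algebra K F]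
  (B : Type) [CommRing B] [IsDedekindDomain B] [Algebra k'[X] B] [Algebra B F]
  [IsScalarTower k'[X] B F] [IsFractionRing B F] [IsIntegralClosure B k'[X] F]
  [Field L] [Algebra F L] [Algebra K L] [IsScalarTower K F L] [Algebra L (Sep F)]
  [IsScalarTower F L (Sep F)] [CommRing S] [IsDedekindDomain S] [Algebra S L] [IsFractionRing S L]
  [Algebra B S] [Algebra.IsIntegral B S] [Algebra B L] [IsScalarTower B F L]
  [IsScalarTower B S L] [Module.IsTorsionFree B S] {f : K[X]} (hgd : Good 2 (-1) f) {a : Sep F}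
  {θ : L}

include hgd in
/-- **The representation is absolutely irreducible over all the finite extensions or scalar.** -/
theorem core_vs (hc : Cliff) (hm : Comm) (lr : Red) (hF : IsGeom k k' K F) {fB : B[X]}
    (hfB : fB.map (algebraMap B F) = f.map (algebraMap K F)) (hfm : fB.Monic)
    (hreg : Regular F fB) (h : Fld (f := f) a θ)
    {V : Type} [AddCommGroup V] [Module (ZMod 2) V] [Module.Finite (ZMod 2) V] {cl : Lˣ → V}
    {Γ : Subgroup (V ≃ₗ[ZMod 2] V)} (hV : IsImg (sqS L) (evS S L) (auts K θ) cl Γ)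
    (hΓ : VerySimple Γ) :
    ∃ (_ : Module.Finite ℤ_[2] (SelT (F := F) 2 B f 2))
      (_ : Module.Free ℤ_[2] (SelT (F := F) 2 B f 2)),
      (∃ (E : IntermediateField k k') (_ : FiniteDimensional k E),
        ScalarOn (rhoU B hF f) (fixE (K := K) F E)) ∨
      ∀ (E : IntermediateField k k') [FiniteDimensional k E],
        AbsIrr (rhoU B hF f) (fixE (K := K) F E) := by
  have hmem : ∀ m : SelT (F := F) 2 B f 2, ∃ z ∈ evS S L, kM hgd h m = clX z := fun m =>
    kM_mem (R := S) hgd hfB hfm hreg h m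
  obtain ⟨h1, h2⟩ := fin_free hgd h hV.finite (fun m => by
    obtain ⟨z, hz, h1⟩ := hmem m
    exact ⟨z, hz, h1.symm⟩)
  refine ⟨h1, h2, ?_⟩
  obtain ⟨κ, hk1, hk2⟩ := hV.exists_kap (kM (B := B) hgd h) hmem
  have hker : ∀ m : SelT (F := F) 2 B f 2, κ m = 0 ↔ ∃ m', m = (2 : ℤ_[2]) • m' :=
    fun m => by rw [hk1]; exact kM_zero_iff hgd h m
  have hofG : ∀ g ∈ Γ, ∃ T : Sep F ≃ₐ[K] Sep F, ∀ m, κ (rho B hF f T m) = g (κ m) := by
    intro g hg
    obtain ⟨_, ⟨e, he, rfl⟩, h3⟩ := hV.ofG g hg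
    obtain ⟨T, hT⟩ := lift_e (F := F) e he.1
    refine ⟨T, fun m => hk2 e g h3 m _ (kM_rho B hgd hF h e he T (fun x => ?_) m)⟩
    rw [← hT, cs_apply, IsScalarTower.algebraMap_apply F L (Sep F)]
  have key : ∀ (N : Subgroup (Sep F ≃ₐ[K] Sep F)), N.Normal →
      ScalarOn (rhoU B hF f) N ∨ AbsIrr (rhoU B hF f) N := fun N hN =>
    abs_vs hc hm lr (rhoU B hF f) κ hker hΓ hofG N hN
  by_cases hex : ∃ (E : IntermediateField k k') (_ : FiniteDimensional k E),
    ScalarOn (rhoU B hF f) (fixE (K := K) F E)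
  · exact Or.inl hex
  · right
    intro E _
    have hcl : IsSepClosure k k' := ⟨inferInstance, inferInstance⟩
    haveI : IsGalois k k' := hcl.isGalois
    let E' : IntermediateField k k' := IntermediateField.normalClosure k E k'
    haveI : Normal k E' := inferInstance
    haveI hfd : FiniteDimensional k E' := inferInstance
    have hle : E ≤ E' := IntermediateField.le_normalClosure E
    rcases key (fixE (K := K) F E') (fixE_normal hF E') with h5 | h5
    · exact absurd ⟨E', hfd, h5⟩ hex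
    · exact h5.mono (fixE_anti hle)

end core

end Pool.Agent.Q45.OI
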